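import Pool.Agent.Lib.MP_bae66e_nt.MA.W3

/-!
# `h(1) = e^{-γ}`
-/

set_option autoImplicit false

namespace Pool.Agent.MA

open Filter Topology Set MeasureTheory intervalIntegral

lemma abs_log_le {t : ℝ} (ht : 0 < t) : |Real.log t| ≤ 2 * t ^ (-(1 / 2) : ℝ) + t := by
  rcases le_total t 1 with h | h
  · have h1 := Real.abs_log_mul_self_rpow_lt t (1 / 2) ht h (by norm_num)
    have hp : 0 < t ^ ((1 : ℝ) / 2) := Real.rpow_pos_of_pos ht _
    rw [abs_mul, abs_of_pos hp] at h1
    have h2 : |Real.log t| ≤ 2 * t ^ (-(1 / 2) : ℝ) := by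
      rw [Real.rpow_neg ht.le, ← div_eq_mul_inv, le_div_iff₀ hp]
      have : (1 : ℝ) / (1 / 2) = 2 := by norm_num
      linarith
    linarith
  · have h1 : Real.log t ≤ t - 1 := Real.log_le_sub_one_of_pos ht
    have h2 : 0 ≤ Real.log t := Real.log_nonneg h
    have h3 : 0 < t ^ (-(1 / 2) : ℝ) := Real.rpow_pos_of_pos ht _
    rw [abs_of_nonneg h2]
    linarith

lemma integrable_exp_rpow : IntegrableOn (fun t : ℝ => Real.exp (-t) * t ^ (-(1 / 2) : ℝ))
    (Ioi 0) := by
  have h := Real.GammaIntegral_convergent (s := 1 / 2) (by norm_num)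
  have e : (1 : ℝ) / 2 - 1 = -(1 / 2) := by norm_num
  rw [e] at h
  exact h

lemma integrable_exp_mul : IntegrableOn (fun t : ℝ => Real.exp (-t) * t) (Ioi 0) := by
  have h := Real.GammaIntegral_convergent (s := 2) (by norm_num)
  have e : (2 : ℝ) - 1 = 1 := by norm_num
  simp only [e, Real.rpow_one] at h
  exact h

lemma integrable_exp_log : IntegrableOn (fun t : ℝ => Real.exp (-t) * Real.log t) (Ioi 0) := by
  apply Integrable.mono' ((integrable_exp_rpow.const_mul 2).add integrable_exp_mul)
  · exact ((by fun_prop : Continuous fun t : ℝ => Real.exp (-t)).measurable.mul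
      Real.measurable_log).aestronglyMeasurable
  · rw [ae_restrict_iff' measurableSet_Ioi]
    filter_upwards with t ht
    have h0 : (0 : ℝ) < t := ht
    have he := Real.exp_pos (-t)
    rw [Real.norm_eq_abs, abs_mul, abs_of_pos he]
    simp only [Pi.add_apply]
    have := mul_le_mul_of_nonneg_left (abs_log_le h0) he.le
    calc Real.exp (-t) * |Real.log t| ≤ _ := this
      _ = _ := by ring

/-- `∫_0^∞ e^{-t} log t dt = -γ` -/
lemma integral_exp_log : ∫ t in Ioi (0 : ℝ), Real.exp (-t) * Real.log t
    = -Real.eulerMascheroniConstant := by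
  have h1 := Complex.hasDerivAt_GammaIntegral (s := 1) (by simp)
  have h2 : HasDerivAt Complex.Gamma
      (∫ t : ℝ in Ioi 0, (t : ℂ) ^ ((1 : ℂ) - 1) * (Real.log t * Real.exp (-t))) 1 := by
    refine h1.congr_of_eventuallyEq ?_
    have : IsOpen {s : ℂ | 0 < s.re} := Complex.continuous_re.isOpen_preimage _ isOpen_Ioi
    filter_upwards [this.mem_nhds (by simp : (1 : ℂ) ∈ {s : ℂ | 0 < s.re})] with a ha
    exact Complex.Gamma_eq_integral ha
  have h3 := h2.unique Complex.hasDerivAt_Gamma_one
  have h4 : ∫ t : ℝ in Ioi 0, (t : ℂ) ^ ((1 : ℂ) - 1) * (Real.log t * Real.exp (-t))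
      = ∫ t : ℝ in Ioi 0, ((Real.exp (-t) * Real.log t : ℝ) : ℂ) := by
    apply MeasureTheory.integral_congr_ae
    filter_upwards with t
    push_cast
    simp only [sub_self, Complex.cpow_zero, one_mul]
    ring
  rw [h4, integral_complex_ofReal] at h3
  exact_mod_cast h3

lemma Ein_eq {x : ℝ} (hx : 0 < x) :
    Ein x = (1 - Real.exp (-x)) * Real.log x - ∫ t in (0 : ℝ)..x, Real.exp (-t) * Real.log t := by
  have hint : IntervalIntegrable (fun t => Real.exp (-t) * Real.log t) volume 0 x := by
    rw [intervalIntegrable_iff_integrableOn_Ioc_of_le hx.le]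
    exact integrable_exp_log.mono_set Ioc_subset_Ioi_self
  have h := integral_eq_sub_of_hasDerivAt_of_le (a := 0) (b := x)
    (f := fun t => (1 - Real.exp (-t)) * Real.log t)
    (f' := fun t => Real.exp (-t) * Real.log t + ph t) hx.le
    (by
      have : (fun t : ℝ => (1 - Real.exp (-t)) * Real.log t)
          = fun t => ph t * (t * Real.log t) := by
        funext t
        rw [← ph_mul t]; ring
      rw [this]
      exact (ph_continuous.mul Real.continuous_mul_log).continuousOn)
    (by
      intro t ht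
      have h1 : HasDerivAt (fun t : ℝ => 1 - Real.exp (-t)) (-(Real.exp (-t) * -1)) t :=
        ((hasDerivAt_neg t).exp).const_sub 1
      have h2 := h1.mul (Real.hasDerivAt_log (ne_of_gt ht.1))
      have e : -(Real.exp (-t) * -1) * Real.log t + (1 - Real.exp (-t)) * t⁻¹
          = Real.exp (-t) * Real.log t + ph t := by
        have ht0 : t ≠ 0 := ne_of_gt ht.1
        rw [← ph_mul t]
        field_simp
      rw [← e]
      exact h2)
    (hint.add (ph_continuous.intervalIntegrable _ _))
  rw [integral_add hint (ph_continuous.intervalIntegrable _ _)] at h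
  simp only [neg_zero, Real.exp_zero, sub_self, zero_mul, sub_zero] at h
  unfold Ein
  linarith

lemma log_sub_Ein : Tendsto (fun x => Real.log x - Ein x) atTop
    (𝓝 (-Real.eulerMascheroniConstant)) := by
  have h1 : Tendsto (fun x : ℝ => ∫ t in (0 : ℝ)..x, Real.exp (-t) * Real.log t) atTop
      (𝓝 (-Real.eulerMascheroniConstant)) := by
    rw [← integral_exp_log]
    exact intervalIntegral_tendsto_integral_Ioi 0 integrable_exp_log tendsto_id
  have h2 : Tendsto (fun x : ℝ => Real.exp (-x) * Real.log x) atTop (𝓝 0) := by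
    apply squeeze_zero' (g := fun x : ℝ => x ^ 1 * Real.exp (-x))
    · filter_upwards [eventually_ge_atTop 1] with x hx
      exact mul_nonneg (Real.exp_pos _).le (Real.log_nonneg hx)
    · filter_upwards [eventually_ge_atTop 1] with x hx
      rw [pow_one, mul_comm]
      apply mul_le_mul_of_nonneg_right _ (Real.exp_pos _).le
      have := Real.log_le_sub_one_of_pos (by linarith : 0 < x)
      linarith
    · exact Real.tendsto_pow_mul_exp_neg_atTop_nhds_zero 1
  have h3 := h2.add h1
  rw [zero_add] at h3
  refine h3.congr' ?_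
  filter_upwards [eventually_gt_atTop 0] with x hx
  rw [Ein_eq hx]
  ring

lemma GG_tendsto : Tendsto GG atTop (𝓝 (Real.exp (-Real.eulerMascheroniConstant))) := by
  have h := (Real.continuous_exp.tendsto _).comp log_sub_Ein
  refine h.congr' ?_
  filter_upwards [eventually_gt_atTop 0] with x hx
  simp only [Function.comp]
  unfold GG kk
  rw [sub_eq_add_neg, Real.exp_add, Real.exp_log hx]

/-- `h(1) = e^{-γ}` -/
lemma hh_one : hh 1 = Real.exp (-Real.eulerMascheroniConstant) := by
  have h := integral_Ioi_of_hasDerivAt_of_tendsto' (a := 0)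
    (f := GG) (f' := fun x => Real.exp (-x) * kk x)
    (fun x _ => GG_hasDerivAt x)
    (by
      have := hh_integrable (u := 1) one_pos
      simpa using this) GG_tendsto
  have e0 : GG 0 = 0 := by unfold GG; simp
  rw [e0, sub_zero] at h
  rw [← h]
  unfold hh
  simp

end Pool.Agent.MA
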