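import Pool.Agent.Lib.MP_bae66e_nt.MA.W1
import Pool.Agent.Lib.MP_bae66e_nt.MA.W4

/-!
# Buchstab's function oscillates around `e^{-γ}`
-/

set_option autoImplicit false

namespace Pool.Agent.MA

open Filter Topology Set MeasureTheory intervalIntegral

/-- right derivative of `F` from `1` on -/
lemma FF_hasDerivWithinAt {v : ℝ} (hv : 1 ≤ v) : HasDerivWithinAt FF (om v) (Ici v) v := by
  have h0 : HasDerivAt (fun v => 1 + ∫ u in (1 : ℝ)..v, om u) (om v) v := by
    have h1 : HasDerivAt (fun v => ∫ u in (1 : ℝ)..v, om u) (om v) v := by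
      apply integral_hasDerivAt_right (om_intervalIntegrable one_pos (by linarith))
      · exact om_continuousOn.stronglyMeasurableAtFilter isOpen_Ioi v (by
          show (0 : ℝ) < v
          linarith)
      · exact om_continuousOn.continuousAt (Ioi_mem_nhds (by linarith))
    exact h1.const_add 1
  refine h0.hasDerivWithinAt.congr ?_ (FF_eq_int_om hv)
  intro x hx
  exact FF_eq_int_om (hv.trans hx)

/-- the integrand of the conserved quantity -/
lemma omhh_continuousOn : ContinuousOn (fun x => om x * hh (x + 1)) (Ioi 0) := by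
  apply om_continuousOn.mul
  apply hh_continuousOn.comp (by fun_prop)
  intro x hx
  have : (0 : ℝ) < x := hx
  show (0 : ℝ) < x + 1
  linarith

lemma omhh_intervalIntegrable {a b : ℝ} (ha : 0 < a) (hb : 0 < b) :
    IntervalIntegrable (fun x => om x * hh (x + 1)) volume a b := by
  apply ContinuousOn.intervalIntegrable
  apply omhh_continuousOn.mono
  intro x hx
  exact lt_of_lt_of_le (lt_min ha hb) hx.1

lemma hh_shift_intervalIntegrable {a b : ℝ} (ha : 0 < a) (hb : 0 < b) :
    IntervalIntegrable (fun x => hh (x + 1)) volume a b := by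
  apply ContinuousOn.intervalIntegrable
  apply hh_continuousOn.comp (by fun_prop)
  intro x hx
  have := lt_of_lt_of_le (lt_min ha hb) hx.1
  show (0 : ℝ) < x + 1
  linarith

/-- the conserved quantity -/
noncomputable def QQ (u : ℝ) : ℝ := FF (u - 1) * hh u + ∫ x in (u - 1)..u, om x * hh (x + 1)

lemma QQ_two : QQ 2 = hh 1 := by
  unfold QQ
  have e1 : FF (2 - 1) = 1 := FF_of_le_one (by norm_num)
  have e2 : ∫ x in (2 - 1 : ℝ)..2, om x * hh (x + 1) = ∫ x in (1 : ℝ)..2, hh (x + 1) / x := by
    have e : (2 : ℝ) - 1 = 1 := by norm_num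
    rw [e]
    apply integral_congr
    intro x hx
    rw [Set.uIcc_of_le (by norm_num)] at hx
    have h1 := om_small hx.1 hx.2
    have h0 : x ≠ 0 := by linarith [hx.1]
    have h2 : om x = 1 / x := by field_simp; linarith
    simp only [h2]
    ring
  have e3 : ∫ x in (1 : ℝ)..2, hh (x + 1) / x = hh 1 - hh 2 := by
    have h := integral_eq_sub_of_hasDerivAt (a := 1) (b := 2) (f := fun x => -hh x)
      (f' := fun x => hh (x + 1) / x)
      (by
        intro x hx
        rw [Set.uIcc_of_le (by norm_num)] at hx
        have := (hh_hasDerivAt (by linarith [hx.1] : 0 < x)).neg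
        rw [neg_neg] at this
        exact this)
      (by
        apply ContinuousOn.intervalIntegrable
        rw [Set.uIcc_of_le (by norm_num)]
        apply ContinuousOn.div
        · apply hh_continuousOn.comp (by fun_prop)
          intro x hx
          have := hx.1
          show (0 : ℝ) < x + 1
          linarith
        · fun_prop
        · intro x hx
          linarith [hx.1])
    rw [h]; ring
  rw [e1, e2, e3]; ring

lemma QQ_const {u : ℝ} (hu : 2 ≤ u) : QQ u = hh 1 := by
  rw [← QQ_two]
  have hI : ∀ v : ℝ, 0 < v →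
      HasDerivAt (fun v => ∫ x in (1 : ℝ)..v, om x * hh (x + 1)) (om v * hh (v + 1)) v := by
    intro v hv
    apply integral_hasDerivAt_right (omhh_intervalIntegrable one_pos hv)
    · exact omhh_continuousOn.stronglyMeasurableAtFilter isOpen_Ioi v hv
    · exact omhh_continuousOn.continuousAt (Ioi_mem_nhds hv)
  have hI2 : ∀ v : ℝ, 1 < v →
      HasDerivAt (fun v => ∫ x in (v - 1)..v, om x * hh (x + 1))
        (om v * hh (v + 1) - om (v - 1) * hh v) v := by
    intro v hv
    have h1 := hI v (by linarith)
    have h2 := (hI (v - 1) (by linarith)).comp v ((hasDerivAt_id v).sub_const 1)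
    have h3 := h1.sub h2
    have e : om v * hh (v + 1) - om (v - 1) * hh (v - 1 + 1) * 1
        = om v * hh (v + 1) - om (v - 1) * hh v := by
      rw [sub_add_cancel, mul_one]
    rw [e] at h3
    refine h3.congr_of_eventuallyEq ?_
    filter_upwards [lt_mem_nhds hv] with x hx
    simp only [Pi.sub_apply, Function.comp, id]
    rw [integral_interval_sub_left]
    · exact omhh_intervalIntegrable one_pos (by linarith)
    · exact omhh_intervalIntegrable one_pos (by linarith)
  have hcont : ContinuousOn QQ (Icc 2 u) := by
    intro x hx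
    have h2x : (2 : ℝ) ≤ x := hx.1
    unfold QQ
    apply ContinuousWithinAt.add
    · apply ContinuousWithinAt.mul
      · exact (FF_continuous.comp (by fun_prop : Continuous fun x : ℝ => x - 1)).continuousWithinAt
      · exact (hh_hasDerivAt (by linarith)).continuousAt.continuousWithinAt
    · exact (hI2 x (by linarith)).continuousAt.continuousWithinAt
  refine constant_of_has_deriv_right_zero hcont ?_ u ⟨hu, le_rfl⟩
  intro x hx
  have h2x : (2 : ℝ) ≤ x := hx.1
  have h1 : HasDerivWithinAt (fun x => FF (x - 1)) (om (x - 1)) (Ici x) x := by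
    have h := (FF_hasDerivWithinAt (v := x - 1) (by linarith)).comp x
      (h := fun x => x - 1) (h' := 1) (s := Ici x)
      (((hasDerivAt_id x).sub_const 1).hasDerivWithinAt)
      (by
        intro y hy
        have : x ≤ y := hy
        show x - 1 ≤ y - 1
        linarith)
    rw [mul_one] at h
    exact h
  have h2 := (h1.mul (hh_hasDerivAt (by linarith : 0 < x)).hasDerivWithinAt).add
    (hI2 x (by linarith)).hasDerivWithinAt
  have e : om (x - 1) * hh x + FF (x - 1) * -(hh (x + 1) / x)
      + (om x * hh (x + 1) - om (x - 1) * hh x) = 0 := by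
    have : om x = FF (x - 1) / x := rfl
    rw [this]; ring
  rw [e] at h2
  exact h2

/-- the identity for `R = ω - c`, `c = h(1)` -/
lemma R_identity {u : ℝ} (hu : 2 ≤ u) :
    u * (om u - hh 1) * hh u + ∫ x in (u - 1)..u, (om x - hh 1) * hh (x + 1) = 0 := by
  have h1 := QQ_const hu
  have h2 := hh_adjoint (by linarith : 0 < u)
  have e1 : ∫ x in (u - 1)..u, (om x - hh 1) * hh (x + 1)
      = (∫ x in (u - 1)..u, om x * hh (x + 1)) - hh 1 * ∫ x in (u - 1)..u, hh (x + 1) := by
    rw [← intervalIntegral.integral_const_mul, ← intervalIntegral.integral_sub]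
    · apply integral_congr
      intro x _
      simp only
      ring
    · exact omhh_intervalIntegrable (by linarith) (by linarith)
    · exact (hh_shift_intervalIntegrable (by linarith) (by linarith)).const_mul _
  have e2 : ∫ x in (u - 1)..u, hh (x + 1) = ∫ x in u..(u + 1), hh x := by
    rw [integral_comp_add_right]
    simp
  have e3 := mul_om (by linarith : 0 < u)
  unfold QQ at h1
  rw [e1, e2]
  have e4 : u * (om u - hh 1) * hh u = (u * om u) * hh u - hh 1 * (u * hh u) := by ring
  rw [e4, e3]
  linear_combination h1 - hh 1 * h2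

/-- if `R` has a constant sign on `[u - 1, u]` then it vanishes there -/
lemma R_zero_of_sign {u σ : ℝ} (hσ : σ ≠ 0) (hu : 2 ≤ u)
    (h : ∀ x ∈ Icc (u - 1) u, 0 ≤ σ * (om x - hh 1)) :
    ∀ x ∈ Icc (u - 1) u, om x = hh 1 := by
  have h0 := R_identity hu
  have h1 : u * (σ * (om u - hh 1)) * hh u
      + ∫ x in (u - 1)..u, σ * (om x - hh 1) * hh (x + 1) = 0 := by
    have e : ∫ x in (u - 1)..u, σ * (om x - hh 1) * hh (x + 1)
        = σ * ∫ x in (u - 1)..u, (om x - hh 1) * hh (x + 1) := by
      rw [← intervalIntegral.integral_const_mul]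
      apply integral_congr
      intro x _
      simp only
      ring
    rw [e]
    linear_combination σ * h0
  have h2 : 0 ≤ u * (σ * (om u - hh 1)) * hh u := by
    have := h u ⟨by linarith, le_rfl⟩
    have := hh_pos (by linarith : 0 < u)
    positivity
  by_contra hc
  push Not at hc
  obtain ⟨x, hx, hne⟩ := hc
  have h3 : 0 < ∫ x in (u - 1)..u, σ * (om x - hh 1) * hh (x + 1) := by
    apply intervalIntegral.integral_pos (by linarith)
    · apply ContinuousOn.mul
      · apply ContinuousOn.mul continuousOn_const
        apply ContinuousOn.sub _ continuousOn_const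
        apply om_continuousOn.mono
        intro y hy
        have := hy.1
        show (0 : ℝ) < y
        linarith
      · apply hh_continuousOn.comp (by fun_prop)
        intro y hy
        have := hy.1
        show (0 : ℝ) < y + 1
        linarith
    · intro y hy
      exact mul_nonneg (h y ⟨hy.1.le, hy.2⟩) (hh_pos (by linarith [hy.1])).le
    · refine ⟨x, hx, ?_⟩
      apply mul_pos _ (hh_pos (by linarith [hx.1]))
      apply lt_of_le_of_ne (h x hx)
      intro h4
      rcases mul_eq_zero.mp h4.symm with h5 | h5
      · exact hσ h5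
      · exact hne (by linarith)
  linarith

/-- `R` cannot have a constant sign on a half line -/
lemma R_sign (σ : ℝ) (hσ : σ ≠ 0) (B : ℝ) : ∃ v, B < v ∧ σ * (om v - hh 1) < 0 := by
  by_contra hc
  push Not at hc
  -- `P n`: `R = 0` on `(n + 1, ∞)`
  obtain ⟨N, hN⟩ := exists_nat_ge (max (B + 1) 2)
  have hP : ∀ v : ℝ, (N : ℝ) + 1 < v → om v = hh 1 := by
    intro v hv
    have h1 : B + 1 < v := by linarith [le_max_left (B + 1) 2]
    have h2 : 2 ≤ v := by linarith [le_max_right (B + 1) 2]
    exact R_zero_of_sign hσ h2 (fun x hx => hc x (by linarith [hx.1])) v ⟨by linarith, le_rfl⟩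
  have hdown : ∀ k : ℕ, k ≤ N → ∀ v : ℝ, ((N - k : ℕ) : ℝ) + 1 < v → om v = hh 1 := by
    intro k
    induction k with
    | zero => intro _ v hv; exact hP v (by simpa using hv)
    | succ k ih =>
      intro hk v hv
      have ih' := ih (by omega)
      set n := N - (k + 1) with hn
      have hn' : N - k = n + 1 := by omega
      rw [hn'] at ih'
      have hv1 : 1 < v := by
        have : (0 : ℝ) ≤ n := Nat.cast_nonneg n
        linarith
      have h1 := FF_hasDerivAt hv1
      have h2 : HasDerivAt FF (hh 1) v := by
        have h3 : HasDerivAt (fun y : ℝ => (y + 1) * hh 1) (1 * hh 1) v :=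
          ((hasDerivAt_id v).add_const 1).mul_const (hh 1)
        rw [one_mul] at h3
        refine h3.congr_of_eventuallyEq ?_
        filter_upwards [lt_mem_nhds hv] with y hy
        have h4 := ih' (y + 1) (by push_cast; linarith)
        have h5 : 0 < y + 1 := by
          have : (0 : ℝ) ≤ n := Nat.cast_nonneg n
          linarith
        have h6 := mul_om h5
        rw [h4, add_sub_cancel_right] at h6
        exact h6.symm
      exact h1.unique h2
  have h0 := hdown N le_rfl
  simp only [Nat.sub_self, Nat.cast_zero, zero_add] at h0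
  have h1 := h0 (3 / 2) (by norm_num)
  have h2 := h0 2 (by norm_num)
  have h3 := om_small (u := 3 / 2) (by norm_num) (by norm_num)
  have h4 := om_small (u := 2) (by norm_num) le_rfl
  rw [h1] at h3
  rw [h2] at h4
  linarith

lemma om_gt (B : ℝ) : ∃ v, B < v ∧ Real.exp (-Real.eulerMascheroniConstant) < om v := by
  obtain ⟨v, hv, h⟩ := R_sign (-1) (by norm_num) B
  refine ⟨v, hv, ?_⟩
  rw [← hh_one]
  linarith

lemma om_lt (B : ℝ) : ∃ v, B < v ∧ om v < Real.exp (-Real.eulerMascheroniConstant) := by
  obtain ⟨v, hv, h⟩ := R_sign 1 (by norm_num) B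
  refine ⟨v, hv, ?_⟩
  rw [← hh_one]
  linarith

end Pool.Agent.MA
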