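import Pool.Agent.Lib.MP_bae66e_nt.MA.W5

/-!
# Mertens' third theorem: the constant
-/

set_option autoImplicit false

namespace Pool.Agent.MA

open Filter Topology Set

/-- `log ζ(1+s)` as a sum over primes -/
noncomputable def ZZ (s : ℝ) : ℝ :=
  ∑' p : Nat.Primes, -Real.log (1 - ((p : ℕ) : ℝ) ^ (-(1 + s)))

lemma rpow_prime_lt_one {s : ℝ} (hs : 0 ≤ s) (p : Nat.Primes) :
    ((p : ℕ) : ℝ) ^ (-(1 + s)) ≤ 1 / 2 := by
  have h2 : (2 : ℝ) ≤ ((p : ℕ) : ℝ) := by exact_mod_cast p.2.two_le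
  calc ((p : ℕ) : ℝ) ^ (-(1 + s)) ≤ ((p : ℕ) : ℝ) ^ (-1 : ℝ) :=
        Real.rpow_le_rpow_of_exponent_le (by linarith) (by linarith)
    _ = 1 / ((p : ℕ) : ℝ) := by rw [Real.rpow_neg_one, one_div]
    _ ≤ 1 / 2 := inv_prime_le p.2

lemma exp_ZZ {s : ℝ} (hs : 0 < s) : Real.exp (ZZ s) = (riemannZeta ((1 + s : ℝ) : ℂ)).re := by
  have h := riemannZeta_eulerProduct_exp_log (s := ((1 + s : ℝ) : ℂ)) (by simpa using hs)
  have e : ∀ p : Nat.Primes, -Complex.log (1 - ((p : ℕ) : ℂ) ^ (-((1 + s : ℝ) : ℂ)))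
      = ((-Real.log (1 - ((p : ℕ) : ℝ) ^ (-(1 + s))) : ℝ) : ℂ) := by
    intro p
    have h1 : (((p : ℕ) : ℝ) ^ (-(1 + s)) : ℝ) ≤ 1 / 2 := rpow_prime_lt_one hs.le p
    rw [Complex.ofReal_neg, Complex.ofReal_log (by linarith), Complex.ofReal_sub,
      Complex.ofReal_cpow (by positivity)]
    push_cast
    rfl
  rw [tsum_congr e, ← Complex.ofReal_tsum, ← Complex.ofReal_exp] at h
  rw [← h, Complex.ofReal_re]
  rfl

lemma ZZ_tendsto : Tendsto (fun s : ℝ => ZZ s + Real.log s) (𝓝[>] 0) (𝓝 0) := by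
  have h := (Asymptotics.isLittleO_one_iff ℝ).mp log_riemannZeta_add_log_sub_isLittleO_ofReal
  have h1 : Tendsto (fun s : ℝ => 1 + s) (𝓝[>] 0) (𝓝[>] 1) := by
    apply tendsto_nhdsWithin_iff.mpr
    constructor
    · have : Tendsto (fun s : ℝ => 1 + s) (𝓝 0) (𝓝 (1 + 0)) :=
        (continuous_const.add continuous_id).tendsto 0
      rw [add_zero] at this
      exact this.mono_left nhdsWithin_le_nhds
    · filter_upwards [self_mem_nhdsWithin] with s hs
      have : (0 : ℝ) < s := hs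
      show (1 : ℝ) < 1 + s
      linarith
  refine (h.comp h1).congr' ?_
  filter_upwards [self_mem_nhdsWithin] with s hs
  have hs0 : (0 : ℝ) < s := hs
  simp only [Function.comp]
  rw [← exp_ZZ hs0, Real.log_exp, add_sub_cancel_left]

/-- `Σ_p -log(1-1/p) p^{-s} - log ζ(1+s) → 0` -/
lemma TT_sub_ZZ : Tendsto (fun s : ℝ => ∑' p : Nat.Primes,
    (wp p * ((p : ℕ) : ℝ) ^ (-s) - -Real.log (1 - ((p : ℕ) : ℝ) ^ (-(1 + s)))))
    (𝓝[>] 0) (𝓝 0) := by
  have hsum := (Nat.Primes.summable_rpow (r := -2)).mpr (by norm_num)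
  have h := tendsto_tsum_of_dominated_convergence (𝓕 := 𝓝[>] (0 : ℝ))
    (f := fun (s : ℝ) (p : Nat.Primes) =>
      wp p * ((p : ℕ) : ℝ) ^ (-s) - -Real.log (1 - ((p : ℕ) : ℝ) ^ (-(1 + s))))
    (g := fun _ => (0 : ℝ)) (hsum.mul_left 4)
    (by
      intro p
      have hp0 : 0 < ((p : ℕ) : ℝ) := by exact_mod_cast p.2.pos
      have hp : ((p : ℕ) : ℝ) ≠ 0 := hp0.ne'
      have hc : ContinuousAt (fun s : ℝ => wp p * ((p : ℕ) : ℝ) ^ (-s)
          - -Real.log (1 - ((p : ℕ) : ℝ) ^ (-(1 + s)))) 0 := by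
        have h1 : ContinuousAt (fun s : ℝ => ((p : ℕ) : ℝ) ^ (-s)) 0 :=
          continuousAt_const.rpow (by fun_prop) (Or.inl hp)
        have h2 : ContinuousAt (fun s : ℝ => ((p : ℕ) : ℝ) ^ (-(1 + s))) 0 :=
          continuousAt_const.rpow (by fun_prop) (Or.inl hp)
        apply (h1.const_mul (wp p)).sub
        apply ContinuousAt.neg
        apply ContinuousAt.log (continuousAt_const.sub h2)
        have h9 : ((p : ℕ) : ℝ) ^ (-(1 + (0 : ℝ))) ≤ 1 / 2 := rpow_prime_lt_one le_rfl p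
        show (1 : ℝ) - ((p : ℕ) : ℝ) ^ (-(1 + (0 : ℝ))) ≠ 0
        exact ne_of_gt (sub_pos.mpr (lt_of_le_of_lt h9 (by norm_num)))
      have h3 := hc.tendsto
      have e : wp p * ((p : ℕ) : ℝ) ^ (-(0 : ℝ))
          - -Real.log (1 - ((p : ℕ) : ℝ) ^ (-(1 + (0 : ℝ)))) = 0 := by
        simp only [neg_zero, Real.rpow_zero, mul_one, add_zero, Real.rpow_neg_one]
        unfold wp
        rw [one_div]; ring
      rw [e] at h3
      exact h3.mono_left nhdsWithin_le_nhds)
    (by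
      filter_upwards [self_mem_nhdsWithin] with s hs p
      have hs0 : (0 : ℝ) < s := hs
      have hp2 : (2 : ℝ) ≤ ((p : ℕ) : ℝ) := by exact_mod_cast p.2.two_le
      have hp0 : 0 < ((p : ℕ) : ℝ) := by linarith
      set x : ℝ := 1 / ((p : ℕ) : ℝ) with hx
      set y : ℝ := ((p : ℕ) : ℝ) ^ (-s) with hy
      have hx0 : 0 < x := by positivity
      have hx2 : x ≤ 1 / 2 := inv_prime_le p.2
      have hy0 : 0 < y := Real.rpow_pos_of_pos hp0 _
      have hy1 : y ≤ 1 := Real.rpow_le_one_of_one_le_of_nonpos (by linarith) (by linarith)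
      have exy : ((p : ℕ) : ℝ) ^ (-(1 + s)) = x * y := by
        rw [neg_add, Real.rpow_add hp0, Real.rpow_neg_one, hx, one_div]
      have e2 : ((p : ℕ) : ℝ) ^ (-2 : ℝ) = x ^ 2 := by
        rw [Real.rpow_neg hp0.le, hx]
        norm_num
      rw [exy, e2]
      have h1 := wp_ge p.2
      have h2 := wp_le p.2
      rw [← hx] at h1 h2
      have hxy2 : x * y ≤ x := by nlinarith
      have h3 := neg_log_ge (x := x * y) (by linarith)
      have h4 := neg_log_le (x := x * y) (by positivity) (by linarith)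
      have h5 : (x * y) ^ 2 ≤ x ^ 2 := by
        apply pow_le_pow_left₀ (by positivity) hxy2
      have h6 : x * y ≤ wp p * y := mul_le_mul_of_nonneg_right h1 hy0.le
      have h7 : wp p * y ≤ (x + 2 * x ^ 2) * y := mul_le_mul_of_nonneg_right h2 hy0.le
      have h8 : x ^ 2 * y ≤ x ^ 2 := by nlinarith [sq_nonneg x]
      rw [Real.norm_eq_abs, abs_le]
      constructor
      · nlinarith
      · nlinarith)
  simpa using h

lemma TT_summable {s : ℝ} (hs : 0 < s) :
    Summable (fun p : Nat.Primes => wp p * ((p : ℕ) : ℝ) ^ (-s)) := (TT_eq hs).summable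

lemma ZZ_summable {s : ℝ} (hs : 0 < s) :
    Summable (fun p : Nat.Primes => -Real.log (1 - ((p : ℕ) : ℝ) ^ (-(1 + s)))) := by
  have hsum := (Nat.Primes.summable_rpow (r := -(1 + s))).mpr (by linarith)
  refine Summable.of_nonneg_of_le (fun p => ?_) (fun p => ?_) (hsum.mul_left 2)
  · have h1 := rpow_prime_lt_one hs.le p
    have h2 : 0 ≤ ((p : ℕ) : ℝ) ^ (-(1 + s)) := by positivity
    exact h2.trans (neg_log_ge (by linarith))
  · have h1 := rpow_prime_lt_one hs.le p
    have h2 : 0 ≤ ((p : ℕ) : ℝ) ^ (-(1 + s)) := by positivity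
    have h3 := neg_log_le h2 h1
    nlinarith

/-- `Σ_{p ≤ n} -log(1-1/p) = log log n + γ + O(1/log n)` -/
lemma exists_LL_gamma : ∃ K : ℝ, ∀ n : ℕ, 2 ≤ n →
    |LL n - Real.log (Real.log n) - Real.eulerMascheroniConstant| ≤ K / Real.log n := by
  obtain ⟨c, K, h1, h2⟩ := exists_TT
  have hlim1 : Tendsto (fun s : ℝ => (∑' p : Nat.Primes, wp p * ((p : ℕ) : ℝ) ^ (-s))
      + Real.log s) (𝓝[>] 0) (𝓝 (c - Real.eulerMascheroniConstant)) := by
    rw [tendsto_iff_norm_sub_tendsto_zero]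
    have hb : Tendsto (fun s : ℝ => K * s ^ ((1 : ℝ) / 2)) (𝓝[>] 0) (𝓝 0) := by
      have h3 : ContinuousAt (fun s : ℝ => K * s ^ ((1 : ℝ) / 2)) 0 :=
        (continuousAt_id.rpow_const (Or.inr (by norm_num))).const_mul K
      have h4 := h3.tendsto
      rw [Real.zero_rpow (by norm_num), mul_zero] at h4
      exact h4.mono_left nhdsWithin_le_nhds
    apply squeeze_zero' _ _ hb
    · filter_upwards with s
      exact norm_nonneg _
    · filter_upwards [self_mem_nhdsWithin] with s hs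
      have hs0 : (0 : ℝ) < s := hs
      rw [Real.norm_eq_abs]
      have e : (∑' p : Nat.Primes, wp p * ((p : ℕ) : ℝ) ^ (-s)) + Real.log s
          - (c - Real.eulerMascheroniConstant)
          = (∑' p : Nat.Primes, wp p * ((p : ℕ) : ℝ) ^ (-s))
          - (c - Real.eulerMascheroniConstant - Real.log s) := by ring
      rw [e]
      exact h2 s hs0
  have hlim2 : Tendsto (fun s : ℝ => (∑' p : Nat.Primes, wp p * ((p : ℕ) : ℝ) ^ (-s))
      + Real.log s) (𝓝[>] 0) (𝓝 0) := by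
    have h3 := TT_sub_ZZ.add ZZ_tendsto
    rw [add_zero] at h3
    refine h3.congr' ?_
    filter_upwards [self_mem_nhdsWithin] with s hs
    have hs0 : (0 : ℝ) < s := hs
    rw [(TT_summable hs0).tsum_sub (ZZ_summable hs0)]
    unfold ZZ
    ring
  have hc : c - Real.eulerMascheroniConstant = 0 := tendsto_nhds_unique hlim1 hlim2
  refine ⟨K, ?_⟩
  intro n hn
  have e : Real.eulerMascheroniConstant = c := by linarith
  rw [e]
  exact h1 n hn

/-- Mertens' third theorem -/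
theorem mertens3' : Tendsto (fun z : ℕ =>
    (∏ p ∈ (Finset.range (z + 1)).filter Nat.Prime, (1 - 1 / (p : ℝ))) * Real.log z) atTop
      (𝓝 (Real.exp (-Real.eulerMascheroniConstant))) := by
  obtain ⟨K, hK⟩ := exists_LL_gamma
  have hlog : Tendsto (fun z : ℕ => Real.log (z : ℝ)) atTop atTop :=
    Real.tendsto_log_atTop.comp tendsto_natCast_atTop_atTop
  have h1 : Tendsto (fun z : ℕ => LL z - Real.log (Real.log z)) atTop
      (𝓝 Real.eulerMascheroniConstant) := by
    rw [tendsto_iff_norm_sub_tendsto_zero]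
    apply squeeze_zero' _ _ (hlog.const_div_atTop K)
    · filter_upwards with s
      exact norm_nonneg _
    · filter_upwards [eventually_ge_atTop 2] with z hz
      rw [Real.norm_eq_abs]
      exact hK z hz
  have h2 := (Real.continuous_exp.tendsto _).comp h1.neg
  refine h2.congr' ?_
  filter_upwards [eventually_ge_atTop 2] with z hz
  have hlz : 0 < Real.log z := Real.log_pos (by exact_mod_cast hz)
  simp only [Function.comp]
  rw [neg_sub, sub_eq_add_neg, Real.exp_add, Real.exp_log hlz, mul_comm]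
  congr 1
  unfold LL
  rw [← Finset.sum_neg_distrib, Real.exp_sum]
  apply Finset.prod_congr rfl
  intro p hp
  have hpp := (Finset.mem_filter.mp hp).2
  unfold wp
  rw [neg_neg, Real.exp_log]
  linarith [inv_prime_le hpp]

end Pool.Agent.MA
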