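import Pool.Agent.Lib.MP_bae66e_nt.MA.W2
import Pool.Agent.Lib.MP_bae66e_nt.MA.W3b
import Pool.Agent.Lib.MP_bae66e_nt.MA.W6

/-!
# Interface of part W (Buchstab's function, Mertens' third theorem)

`roughLogSum z x y` (file `W2`) is the sum of `1/n` over the `n` in `(x, y]` free of prime
factors `≤ z`.
-/

set_option autoImplicit false

namespace Pool.Agent.MA

open Filter Topology

/-- exported: Buchstab's function, its oscillation around `e^{-γ}` and the logarithmic count of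
rough numbers -/
theorem buchstab : ∃ ω : ℝ → ℝ, ContinuousOn ω (Set.Ici 1) ∧
    (∀ u, 1 ≤ u → u ≤ 2 → u * ω u = 1) ∧
    (∀ u, 2 ≤ u → u * ω u = 1 + ∫ x in (1 : ℝ)..(u - 1), ω x) ∧
    (∀ B : ℝ, ∃ v, B < v ∧ Real.exp (-Real.eulerMascheroniConstant) < ω v) ∧
    (∀ B : ℝ, ∃ v, B < v ∧ ω v < Real.exp (-Real.eulerMascheroniConstant)) ∧
    ∀ v₁ v₂ : ℝ, 1 ≤ v₁ → v₁ < v₂ →
      Tendsto (fun z : ℕ => roughLogSum z ((z : ℝ) ^ v₁) ((z : ℝ) ^ v₂)) atTop
        (𝓝 (∫ x in v₁..v₂, ω x)) :=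
  ⟨om, om_continuousOn.mono (fun _ hx => Set.mem_Ioi.mpr (lt_of_lt_of_le one_pos (Set.mem_Ici.mp hx))), fun _ h1 h2 => om_small h1 h2,
    fun _ hu => om_eq hu, om_gt, om_lt, fun _ _ h1 h2 => roughLogSum_tendsto h1 h2⟩

/-- exported: Mertens' third theorem -/
theorem mertens3 : Tendsto (fun z : ℕ =>
    (∏ p ∈ (Finset.range (z + 1)).filter Nat.Prime, (1 - 1 / (p : ℝ))) * Real.log z) atTop
      (𝓝 (Real.exp (-Real.eulerMascheroniConstant))) := mertens3'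

end Pool.Agent.MA
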