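import Mathlib

/-!
# Buchstab's function: construction
-/

set_option autoImplicit false

namespace Pool.Agent.MA

open Filter Topology Set MeasureTheory intervalIntegral

/-- step construction -/
noncomputable def FN : ℕ → ℝ → ℝ
  | 0 => fun _ => 1
  | n + 1 => fun v => 1 + ∫ u in (1 : ℝ)..(max v 1), FN n (u - 1) / max u 1

lemma FN_zero (v : ℝ) : FN 0 v = 1 := rfl

lemma FN_succ (n : ℕ) (v : ℝ) :
    FN (n + 1) v = 1 + ∫ u in (1 : ℝ)..(max v 1), FN n (u - 1) / max u 1 := rfl

lemma FN_continuous (n : ℕ) : Continuous (FN n) := by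
  induction n with
  | zero => exact continuous_const
  | succ n ih =>
    have h1 : Continuous (fun u : ℝ => FN n (u - 1) / max u 1) := by
      apply Continuous.div
      · exact ih.comp (by fun_prop)
      · fun_prop
      · intro u
        have : (1 : ℝ) ≤ max u 1 := le_max_right _ _
        linarith
    have h2 : Continuous (fun v : ℝ => ∫ u in (1 : ℝ)..v, FN n (u - 1) / max u 1) :=
      intervalIntegral.continuous_primitive (fun a b => h1.intervalIntegrable a b) 1
    have h3 : FN (n + 1) = fun v => 1 + ∫ u in (1 : ℝ)..(max v 1), FN n (u - 1) / max u 1 := rfl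
    rw [h3]
    exact continuous_const.add (h2.comp (by fun_prop))

lemma FN_succ_eq (n : ℕ) : ∀ v ≤ (n : ℝ) + 1, FN (n + 1) v = FN n v := by
  induction n with
  | zero =>
    intro v hv
    rw [FN_succ, FN_zero, max_eq_right (by simpa using hv)]
    simp
  | succ n ih =>
    intro v hv
    rw [FN_succ (n + 1), FN_succ n]
    congr 1
    apply integral_congr
    intro u hu
    rw [Set.uIcc_of_le (le_max_right _ _)] at hu
    simp only
    rw [ih (u - 1)]
    have h2 := hu.2
    push_cast at hv
    rcases le_max_iff.mp h2 with h | h <;> linarith [(Nat.cast_nonneg n : (0 : ℝ) ≤ n)]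

lemma FN_stable {m n : ℕ} (h : m ≤ n) {v : ℝ} (hv : v ≤ (m : ℝ) + 1) : FN n v = FN m v := by
  induction n, h using Nat.le_induction with
  | base => rfl
  | succ n hmn ih =>
    rw [FN_succ_eq n v, ih]
    have : (m : ℝ) ≤ n := by exact_mod_cast hmn
    linarith

/-- `F(v)`: limit of the logarithmic sums of `z`-rough numbers up to `z ^ v` -/
noncomputable def FF (v : ℝ) : ℝ := FN ⌈v⌉₊ v

lemma FF_eq (n : ℕ) {v : ℝ} (hv : v ≤ (n : ℝ) + 1) : FF v = FN n v := by
  unfold FF
  rcases le_total n ⌈v⌉₊ with h | h
  · exact FN_stable h hv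
  · refine (FN_stable h ?_).symm
    have := Nat.le_ceil v
    linarith

lemma FF_continuous : Continuous FF := by
  rw [continuous_iff_continuousAt]
  intro v
  have h1 : ContinuousAt (FN ⌈v⌉₊) v := (FN_continuous _).continuousAt
  refine h1.congr ?_
  have h2 : ∀ᶠ x in 𝓝 v, x < (⌈v⌉₊ : ℝ) + 1 := by
    apply eventually_lt_nhds
    have := Nat.le_ceil v
    linarith
  filter_upwards [h2] with x hx
  exact (FF_eq _ hx.le).symm

lemma FF_of_le_one {v : ℝ} (hv : v ≤ 1) : FF v = 1 := by
  rw [FF_eq 0 (by simpa using hv), FN_zero]

lemma FF_eq_integral {v : ℝ} (hv : 1 ≤ v) : FF v = 1 + ∫ u in (1 : ℝ)..v, FF (u - 1) / u := by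
  obtain ⟨n, hn⟩ := exists_nat_ge v
  rw [FF_eq (n + 1) (by push_cast; linarith), FN_succ, max_eq_left hv]
  congr 1
  apply integral_congr
  intro u hu
  rw [Set.uIcc_of_le hv] at hu
  simp only
  rw [max_eq_left hu.1, FF_eq n]
  linarith [hu.2]

lemma one_le_FF (v : ℝ) : 1 ≤ FF v := by
  have key : ∀ n : ℕ, ∀ v : ℝ, 1 ≤ FN n v := by
    intro n
    induction n with
    | zero => intro v; rw [FN_zero]
    | succ n ih =>
      intro v
      rw [FN_succ]
      have : 0 ≤ ∫ u in (1 : ℝ)..(max v 1), FN n (u - 1) / max u 1 := by
        apply integral_nonneg (le_max_right _ _)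
        intro u hu
        have h1 := ih (u - 1)
        have h2 : (0 : ℝ) < max u 1 := lt_of_lt_of_le one_pos (le_max_right _ _)
        positivity
      linarith
  exact key _ v

/-- Buchstab's function -/
noncomputable def om (u : ℝ) : ℝ := FF (u - 1) / u

lemma om_continuousOn : ContinuousOn om (Ioi 0) := by
  unfold om
  apply ContinuousOn.div
  · exact (FF_continuous.comp (by fun_prop)).continuousOn
  · fun_prop
  · intro u hu
    exact (ne_of_gt hu)

lemma om_pos {u : ℝ} (hu : 0 < u) : 0 < om u := by
  have := one_le_FF (u - 1)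
  unfold om
  positivity

lemma om_intervalIntegrable {a b : ℝ} (ha : 0 < a) (hb : 0 < b) :
    IntervalIntegrable om volume a b := by
  apply ContinuousOn.intervalIntegrable
  apply om_continuousOn.mono
  intro x hx
  exact lt_of_lt_of_le (lt_min ha hb) hx.1

lemma FF_eq_int_om {v : ℝ} (hv : 1 ≤ v) : FF v = 1 + ∫ u in (1 : ℝ)..v, om u := by
  rw [FF_eq_integral hv]
  rfl

/-- for all `v`, with the upper limit cut at `1` -/
lemma FF_eq_int_om' (v : ℝ) : FF v = 1 + ∫ u in (1 : ℝ)..(max v 1), om u := by
  rcases le_total 1 v with h | h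
  · rw [max_eq_left h, FF_eq_int_om h]
  · rw [max_eq_right h, FF_of_le_one h]; simp

lemma mul_om {u : ℝ} (hu : 0 < u) : u * om u = FF (u - 1) := by
  unfold om
  field_simp

lemma om_small {u : ℝ} (h1 : 1 ≤ u) (h2 : u ≤ 2) : u * om u = 1 := by
  rw [mul_om (by linarith), FF_of_le_one (by linarith)]

lemma om_eq {u : ℝ} (hu : 2 ≤ u) : u * om u = 1 + ∫ x in (1 : ℝ)..(u - 1), om x := by
  rw [mul_om (by linarith), FF_eq_int_om (by linarith)]

lemma FF_sub {a b : ℝ} (ha : 1 ≤ a) (hab : a ≤ b) : FF b - FF a = ∫ x in a..b, om x := by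
  rw [FF_eq_int_om ha, FF_eq_int_om (ha.trans hab)]
  rw [← integral_add_adjacent_intervals (om_intervalIntegrable one_pos (by linarith : 0 < a))
    (om_intervalIntegrable (by linarith) (by linarith))]
  ring

lemma FF_mono : Monotone FF := by
  intro a b hab
  rw [FF_eq_int_om' a, FF_eq_int_om' b]
  have h1 : (1 : ℝ) ≤ max a 1 := le_max_right _ _
  have h2 : max a 1 ≤ max b 1 := max_le_max_right 1 hab
  rw [← integral_add_adjacent_intervals (om_intervalIntegrable one_pos (by linarith : 0 < max a 1))
    (om_intervalIntegrable (by linarith) (by linarith : 0 < max b 1))]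
  have h3 : 0 ≤ ∫ x in (max a 1)..(max b 1), om x := by
    apply integral_nonneg h2
    intro u hu
    exact (om_pos (by linarith [hu.1])).le
  linarith

/-- derivative of `F` to the right of `1` -/
lemma FF_hasDerivAt {v : ℝ} (hv : 1 < v) : HasDerivAt FF (om v) v := by
  have h0 : HasDerivAt (fun v => 1 + ∫ u in (1 : ℝ)..v, om u) (om v) v := by
    have h1 : HasDerivAt (fun v => ∫ u in (1 : ℝ)..v, om u) (om v) v := by
      apply integral_hasDerivAt_right (om_intervalIntegrable one_pos (by linarith))
      · exact om_continuousOn.stronglyMeasurableAtFilter isOpen_Ioi v (by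
          show (0 : ℝ) < v
          linarith)
      · exact om_continuousOn.continuousAt (Ioi_mem_nhds (by linarith))
    exact h1.const_add 1
  refine h0.congr_of_eventuallyEq ?_
  filter_upwards [lt_mem_nhds hv] with x hx
  exact FF_eq_int_om hx.le

/-- `F` in terms of logarithms -/
lemma FF_log {v : ℝ} (hv : 1 ≤ v) : FF v = 1 + Real.log v +
    ∫ u in (1 : ℝ)..(max (v - 1) 1), om u * Real.log (v / (u + 1)) := by
  rcases le_total v 2 with h | h
  · rw [max_eq_right (by linarith), integral_same, add_zero, FF_eq_int_om hv]
    have : ∫ u in (1 : ℝ)..v, om u = ∫ u in (1 : ℝ)..v, u⁻¹ := by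
      apply integral_congr
      intro u hu
      rw [Set.uIcc_of_le hv] at hu
      have := om_small hu.1 (hu.2.trans h)
      have h0 : u ≠ 0 := by linarith [hu.1]
      field_simp
      linarith
    rw [this, integral_inv_of_pos one_pos (by linarith)]
    simp
  · rw [max_eq_left (by linarith)]
    -- integrate by parts on `[2, v]`
    have e1 : FF v = FF 2 + ∫ u in (2 : ℝ)..v, om u := by
      have := FF_sub (by norm_num : (1 : ℝ) ≤ 2) h
      linarith
    have e2 : FF 2 = 1 + Real.log 2 := by
      rw [FF_eq_int_om (by norm_num)]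
      have : ∫ u in (1 : ℝ)..2, om u = ∫ u in (1 : ℝ)..2, u⁻¹ := by
        apply integral_congr
        intro u hu
        rw [Set.uIcc_of_le (by norm_num)] at hu
        have := om_small hu.1 hu.2
        have h0 : u ≠ 0 := by linarith [hu.1]
        field_simp
        linarith
      rw [this, integral_inv_of_pos one_pos (by norm_num)]
      simp
    have e3 : ∫ u in (2 : ℝ)..v, om u = ∫ u in (2 : ℝ)..v, FF (u - 1) * u⁻¹ := by
      apply integral_congr
      intro u _
      simp only [om]
      ring
    have e4 := integral_mul_deriv_eq_deriv_mul_of_hasDeriv_right (a := 2) (b := v)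
      (u := fun u => FF (u - 1)) (v := fun u => Real.log u) (u' := fun u => om (u - 1))
      (v' := fun u => u⁻¹)
      ((FF_continuous.comp (by fun_prop)).continuousOn)
      (by
        intro u hu
        rw [Set.uIcc_of_le h] at hu
        exact (Real.continuousAt_log (by linarith [hu.1])).continuousWithinAt)
      (by
        intro u hu
        rw [min_eq_left h, max_eq_right h] at hu
        have h1 : HasDerivAt FF (om (u - 1)) (u - 1) := FF_hasDerivAt (by linarith [hu.1])
        have h2 := h1.comp u ((hasDerivAt_id u).sub_const 1)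
        simp only [mul_one] at h2
        exact h2.hasDerivWithinAt)
      (by
        intro u hu
        rw [min_eq_left h, max_eq_right h] at hu
        exact (Real.hasDerivAt_log (by linarith [hu.1])).hasDerivWithinAt)
      (by
        apply ContinuousOn.intervalIntegrable
        rw [Set.uIcc_of_le h]
        apply ContinuousOn.comp om_continuousOn (by fun_prop)
        intro u hu
        have := hu.1
        show (0 : ℝ) < u - 1
        linarith)
      (by
        apply ContinuousOn.intervalIntegrable
        rw [Set.uIcc_of_le h]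
        apply ContinuousOn.inv₀ (by fun_prop)
        intro u hu
        linarith [hu.1])
    have e5 : ∫ u in (2 : ℝ)..v, om (u - 1) * Real.log u
        = ∫ u in (1 : ℝ)..(v - 1), om u * Real.log (u + 1) := by
      have := integral_comp_sub_right (a := 2) (b := v) (fun u => om u * Real.log (u + 1)) 1
      simp only [sub_add_cancel] at this
      rw [this]
      norm_num
    have e6 : ∫ u in (1 : ℝ)..(v - 1), om u * Real.log (v / (u + 1))
        = Real.log v * (∫ u in (1 : ℝ)..(v - 1), om u)
          - ∫ u in (1 : ℝ)..(v - 1), om u * Real.log (u + 1) := by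
      rw [← intervalIntegral.integral_const_mul, ← intervalIntegral.integral_sub]
      · apply integral_congr
        intro u hu
        rw [Set.uIcc_of_le (by linarith)] at hu
        simp only
        rw [Real.log_div (by linarith) (by linarith [hu.1])]
        ring
      · exact (om_intervalIntegrable one_pos (by linarith)).const_mul _
      · apply ContinuousOn.intervalIntegrable
        rw [Set.uIcc_of_le (by linarith)]
        apply ContinuousOn.mul
        · exact om_continuousOn.mono (fun u hu => by
            have := hu.1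
            show (0 : ℝ) < u
            linarith)
        · apply ContinuousOn.log (by fun_prop)
          intro u hu
          linarith [hu.1]
    have e7 := FF_eq_int_om (v := v - 1) (by linarith)
    have e8 : FF (2 - 1) = 1 := FF_of_le_one (by norm_num)
    rw [e1, e2, e3, e4, e5, e6, e8]
    have : ∫ u in (1 : ℝ)..(v - 1), om u = FF (v - 1) - 1 := by linarith
    rw [this]
    ring

end Pool.Agent.MA
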