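import Pool.Agent.Lib.MP_bae66e_nt.MA.W1
import Pool.Agent.Lib.MP_bae66e_nt.AP3.Mert

/-!
# Logarithmic sums of rough numbers
-/

set_option autoImplicit false

namespace Pool.Agent.MA

open Filter Topology Set MeasureTheory intervalIntegral

/-- all prime factors of `n` are `≥ w` -/
def RoughFrom (w n : ℕ) : Prop := ∀ p, p.Prime → p ∣ n → w ≤ p

open Classical in
/-- the `n ≤ N` all of whose prime factors are `≥ w` -/
noncomputable def rset (w N : ℕ) : Finset ℕ := (Finset.Icc 1 N).filter (RoughFrom w)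

lemma mem_rset {w N n : ℕ} : n ∈ rset w N ↔ (1 ≤ n ∧ n ≤ N) ∧ RoughFrom w n := by
  simp [rset]

lemma roughFrom_one (w : ℕ) : RoughFrom w 1 := by
  intro p hp h
  exact absurd (Nat.dvd_one.mp h) hp.one_lt.ne'

/-- Buchstab's identity -/
lemma rset_buchstab {w N : ℕ} (hN : 1 ≤ N) :
    ∑ n ∈ rset w N, (1 : ℝ) / n = 1 + ∑ p ∈ (Finset.Icc w N).filter Nat.Prime,
      (1 / (p : ℝ)) * ∑ m ∈ rset p (N / p), (1 : ℝ) / m := by
  have h1 : (1 : ℕ) ∈ rset w N := mem_rset.mpr ⟨⟨le_rfl, hN⟩, roughFrom_one w⟩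
  rw [← Finset.add_sum_erase _ _ h1]
  congr 1
  · simp
  rw [← Finset.sum_fiberwise_of_maps_to (s := (rset w N).erase 1)
    (t := (Finset.Icc w N).filter Nat.Prime) (g := Nat.minFac)]
  · apply Finset.sum_congr rfl
    intro p hp
    rw [Finset.mem_filter, Finset.mem_Icc] at hp
    obtain ⟨⟨hwp, hpN⟩, hpp⟩ := hp
    rw [Finset.mul_sum]
    apply Finset.sum_nbij' (fun n => n / p) (fun m => p * m)
    · intro n hn
      rw [Finset.mem_filter, Finset.mem_erase, mem_rset] at hn
      obtain ⟨⟨hn1, ⟨hn2, hn3⟩, hn4⟩, hn5⟩ := hn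
      have hd : p ∣ n := hn5 ▸ Nat.minFac_dvd n
      rw [mem_rset]
      refine ⟨⟨?_, Nat.div_le_div_right hn3⟩, ?_⟩
      · exact Nat.div_pos (Nat.le_of_dvd (by omega) hd) hpp.pos
      · intro q hq hqn
        have : q ∣ n := hqn.trans (Nat.div_dvd_of_dvd hd)
        rw [← hn5]
        exact Nat.minFac_le_of_dvd hq.two_le this
    · intro m hm
      rw [mem_rset] at hm
      obtain ⟨⟨hm1, hm2⟩, hm3⟩ := hm
      rw [Finset.mem_filter, Finset.mem_erase, mem_rset]
      have hpm : 2 ≤ p * m := by nlinarith [hpp.two_le]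
      refine ⟨⟨by omega, ⟨by omega, ?_⟩, ?_⟩, ?_⟩
      · calc p * m ≤ p * (N / p) := Nat.mul_le_mul_left p hm2
          _ ≤ N := Nat.mul_div_le N p
      · intro q hq hqd
        rcases (Nat.Prime.dvd_mul hq).mp hqd with h | h
        · rw [(Nat.prime_dvd_prime_iff_eq hq hpp).mp h]; exact hwp
        · exact hwp.trans (hm3 q hq h)
      · apply le_antisymm
        · exact Nat.minFac_le_of_dvd hpp.two_le (Dvd.intro m rfl)
        · have hq : (Nat.minFac (p * m)).Prime := Nat.minFac_prime (by omega)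
          rcases (Nat.Prime.dvd_mul hq).mp (Nat.minFac_dvd (p * m)) with h | h
          · exact ((Nat.prime_dvd_prime_iff_eq hq hpp).mp h).ge
          · exact hm3 _ hq h
    · intro n hn
      rw [Finset.mem_filter] at hn
      have hd : p ∣ n := hn.2 ▸ Nat.minFac_dvd n
      exact Nat.mul_div_cancel' hd
    · intro m _
      exact Nat.mul_div_cancel_left m hpp.pos
    · intro n hn
      rw [Finset.mem_filter] at hn
      have hd : p ∣ n := hn.2 ▸ Nat.minFac_dvd n
      have hp0 : (p : ℝ) ≠ 0 := by exact_mod_cast hpp.ne_zero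
      rw [Nat.cast_div hd hp0]
      field_simp
  · intro n hn
    rw [Finset.mem_erase, mem_rset] at hn
    obtain ⟨hn1, ⟨hn2, hn3⟩, hn4⟩ := hn
    have hp : n.minFac.Prime := Nat.minFac_prime hn1
    rw [Finset.mem_filter, Finset.mem_Icc]
    exact ⟨⟨hn4 _ hp (Nat.minFac_dvd n), (Nat.minFac_le (by omega)).trans hn3⟩, hp⟩

/-- the logarithmic sum of the `n ≤ x` all of whose prime factors are `≥ w` -/
noncomputable def RR (w : ℕ) (x : ℝ) : ℝ := ∑ n ∈ rset w ⌊x⌋₊, (1 : ℝ) / n

lemma RR_buchstab {w : ℕ} {x : ℝ} (hx : 1 ≤ x) :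
    RR w x = 1 + ∑ p ∈ (Finset.Icc w ⌊x⌋₊).filter Nat.Prime, (1 / (p : ℝ)) * RR p (x / p) := by
  unfold RR
  rw [rset_buchstab (Nat.le_floor (by simpa using hx))]
  congr 1
  apply Finset.sum_congr rfl
  intro p _
  rw [Nat.floor_div_natCast]

/-- sum of reciprocals of primes in `[w, y]` -/
noncomputable def PS (w : ℕ) (y : ℝ) : ℝ :=
  ∑ p ∈ (Finset.Icc w ⌊y⌋₊).filter Nat.Prime, 1 / (p : ℝ)

lemma exists_PS : ∃ C : ℝ, 0 ≤ C ∧ ∀ w : ℕ, 2 ≤ w → ∀ t : ℝ, 1 ≤ t →
    |PS w ((w : ℝ) ^ t) - Real.log t| ≤ C / Real.log w := by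
  obtain ⟨C, hC0, hC⟩ := Lib.MP_bae66e_nt.AP3.exists_sum_inv_le
  refine ⟨C + 1 + Real.log 2, ?_, ?_⟩
  · have := Real.log_nonneg (by norm_num : (1 : ℝ) ≤ 2)
    linarith
  intro w hw t ht
  have hw1 : (1 : ℝ) < w := by exact_mod_cast hw
  have hw2 : (2 : ℝ) ≤ w := by exact_mod_cast hw
  have hl : 0 < Real.log w := Real.log_pos hw1
  set n := ⌊(w : ℝ) ^ t⌋₊ with hn
  have hwt : (w : ℝ) ≤ (w : ℝ) ^ t := by
    calc (w : ℝ) = (w : ℝ) ^ (1 : ℝ) := (Real.rpow_one _).symm
      _ ≤ _ := Real.rpow_le_rpow_of_exponent_le hw1.le ht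
  have hwn : w ≤ n := Nat.le_floor hwt
  have hn1 : (n : ℝ) ≤ (w : ℝ) ^ t := Nat.floor_le (by positivity)
  have hn2 : (w : ℝ) ^ t < n + 1 := Nat.lt_floor_add_one _
  have hn0 : (0 : ℝ) < n := by
    have : (w : ℝ) ≤ n := by exact_mod_cast hwn
    linarith
  have hlt : Real.log ((w : ℝ) ^ t) = t * Real.log w := Real.log_rpow (by linarith) t
  have hln1 : Real.log n ≤ t * Real.log w := by
    rw [← hlt]; exact Real.log_le_log hn0 hn1
  have hln2 : t * Real.log w - Real.log 2 ≤ Real.log n := by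
    rw [← hlt]
    have h1 : (w : ℝ) ^ t ≤ 2 * n := by
      have : (2 : ℝ) ≤ n := by
        have : (w : ℝ) ≤ n := by exact_mod_cast hwn
        linarith
      linarith
    have h2 := Real.log_le_log (by linarith) h1
    rw [Real.log_mul (by norm_num) hn0.ne'] at h2
    linarith
  have hlwn : Real.log w ≤ Real.log n := Real.log_le_log (by linarith) (by exact_mod_cast hwn)
  -- the prime sum
  have hsum : PS w ((w : ℝ) ^ t) = ∑ p ∈ Lib.MP_bae66e_nt.AP3.prI w n, 1 / (p : ℝ)
      + if w.Prime then 1 / (w : ℝ) else 0 := by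
    unfold PS
    rw [← hn]
    split_ifs with hwp
    · have : (Finset.Icc w n).filter Nat.Prime
          = insert w (Lib.MP_bae66e_nt.AP3.prI w n) := by
        ext p
        rw [Finset.mem_insert, Lib.MP_bae66e_nt.AP3.mem_prI, Finset.mem_filter, Finset.mem_Icc]
        constructor
        · rintro ⟨⟨h1, h2⟩, h3⟩
          rcases eq_or_lt_of_le h1 with h | h
          · exact Or.inl h.symm
          · exact Or.inr ⟨⟨h, h2⟩, h3⟩
        · rintro (rfl | ⟨⟨h1, h2⟩, h3⟩)
          · exact ⟨⟨le_rfl, hwn⟩, hwp⟩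
          · exact ⟨⟨h1.le, h2⟩, h3⟩
      rw [this, Finset.sum_insert]
      · ring
      · rw [Lib.MP_bae66e_nt.AP3.mem_prI]
        rintro ⟨⟨h, _⟩, _⟩
        exact absurd h (lt_irrefl _)
    · rw [add_zero]
      apply Finset.sum_congr _ fun _ _ => rfl
      ext p
      rw [Lib.MP_bae66e_nt.AP3.mem_prI, Finset.mem_filter, Finset.mem_Icc]
      constructor
      · rintro ⟨⟨h1, h2⟩, h3⟩
        refine ⟨⟨lt_of_le_of_ne h1 ?_, h2⟩, h3⟩
        rintro rfl
        exact hwp h3
      · rintro ⟨⟨h1, h2⟩, h3⟩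
        exact ⟨⟨h1.le, h2⟩, h3⟩
  have hextra : |(if w.Prime then 1 / (w : ℝ) else 0)| ≤ 1 / Real.log w := by
    have h1 : 1 / (w : ℝ) ≤ 1 / Real.log w := by
      apply one_div_le_one_div_of_le hl
      have := Real.log_le_sub_one_of_pos (by linarith : (0 : ℝ) < w)
      linarith
    split_ifs
    · rw [abs_of_nonneg (by positivity)]; exact h1
    · rw [abs_zero]; positivity
  have hmain := hC w n hw hwn
  have hratio : |Real.log (Real.log n / Real.log w) - Real.log t| ≤ Real.log 2 / Real.log w := by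
    have hlnpos : 0 < Real.log n := lt_of_lt_of_le hl hlwn
    have ht0 : 0 < t := by linarith
    have h1 : Real.log (Real.log n / Real.log w) ≤ Real.log t := by
      apply Real.log_le_log (by positivity)
      rw [div_le_iff₀ hl]
      exact hln1
    have h2 : Real.log t - Real.log (Real.log n / Real.log w) ≤ Real.log 2 / Real.log w := by
      rw [← Real.log_div ht0.ne' (by positivity)]
      have h3 := Real.log_le_sub_one_of_pos
        (by positivity : 0 < t / (Real.log n / Real.log w))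
      refine h3.trans ?_
      have e : t / (Real.log n / Real.log w) - 1 = (t * Real.log w - Real.log n) / Real.log n := by
        field_simp
      rw [e]
      have h20 : 0 ≤ Real.log 2 := Real.log_nonneg (by norm_num)
      calc (t * Real.log w - Real.log n) / Real.log n ≤ Real.log 2 / Real.log n := by
            apply div_le_div_of_nonneg_right _ hlnpos.le
            linarith
        _ ≤ Real.log 2 / Real.log w := div_le_div_of_nonneg_left h20 hl hlwn
    rw [abs_le]
    constructor <;> linarith [div_nonneg (Real.log_nonneg (by norm_num : (1 : ℝ) ≤ 2)) hl.le]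
  rw [hsum]
  have e : (C + 1 + Real.log 2) / Real.log w
      = C / Real.log w + 1 / Real.log w + Real.log 2 / Real.log w := by ring
  rw [e]
  rw [abs_le] at *
  constructor <;> linarith [hmain.1, hmain.2, hextra.1, hextra.2, hratio.1, hratio.2]

/-- cutting an integral -/
lemma int_cut {M c : ℝ} (g : ℝ → ℝ) (hM : 1 ≤ M) (hc : c ≤ M)
    (hg : IntervalIntegrable g volume 1 M) :
    IntervalIntegrable (fun u => if u ≤ c then g u else 0) volume 1 M ∧
    ∫ u in (1 : ℝ)..M, (if u ≤ c then g u else 0) = ∫ u in (1 : ℝ)..(max c 1), g u := by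
  have h1 : (fun u => if u ≤ c then g u else 0) = Set.indicator (Set.Iic c) g := by
    funext t
    simp [Set.indicator_apply]
  constructor
  · rw [h1, intervalIntegrable_iff]
    rw [intervalIntegrable_iff] at hg
    exact hg.indicator measurableSet_Iic
  · rw [h1, intervalIntegral.integral_of_le hM, intervalIntegral.integral_of_le (le_max_right c 1),
      setIntegral_indicator measurableSet_Iic]
    congr 2
    ext x
    simp only [Set.mem_inter_iff, Set.mem_Ioc, Set.mem_Iic, le_max_iff]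
    constructor
    · rintro ⟨⟨h2, h3⟩, h4⟩
      exact ⟨h2, Or.inl h4⟩
    · rintro ⟨h2, h3 | h3⟩
      · exact ⟨⟨h2, h3.trans hc⟩, h3⟩
      · linarith

/-- the sum of `F` over primes -/
lemma sum_FF {w : ℕ} (hw : 2 ≤ w) {v : ℝ} (hv : 1 ≤ v) :
    IntervalIntegrable (fun u => om u * PS w ((w : ℝ) ^ (v / (u + 1)))) volume 1
      (max (v - 1) 1) ∧
    ∑ p ∈ (Finset.Icc w ⌊(w : ℝ) ^ v⌋₊).filter Nat.Prime,
      (1 / (p : ℝ)) * FF (v * Real.log w / Real.log p - 1)
    = PS w ((w : ℝ) ^ v)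
      + ∫ u in (1 : ℝ)..(max (v - 1) 1), om u * PS w ((w : ℝ) ^ (v / (u + 1))) := by
  set M := max (v - 1) 1 with hM
  have hM1 : 1 ≤ M := le_max_right _ _
  have hw1 : (1 : ℝ) < w := by exact_mod_cast hw
  have hl : 0 < Real.log w := Real.log_pos hw1
  set T := (Finset.Icc w ⌊(w : ℝ) ^ v⌋₊).filter Nat.Prime with hT
  have hlog : ∀ p ∈ T, Real.log w ≤ Real.log p := by
    intro p hp
    rw [hT, Finset.mem_filter, Finset.mem_Icc] at hp
    exact Real.log_le_log (by linarith) (by exact_mod_cast hp.1.1)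
  have hc : ∀ p ∈ T, v * Real.log w / Real.log p - 1 ≤ M := by
    intro p hp
    have h1 := hlog p hp
    have h2 : v * Real.log w / Real.log p ≤ v := by
      rw [div_le_iff₀ (by linarith)]
      exact mul_le_mul_of_nonneg_left h1 (by linarith)
    have : v - 1 ≤ M := le_max_left _ _
    linarith
  have hom : IntervalIntegrable om volume 1 M := om_intervalIntegrable one_pos (by linarith)
  have hcut := fun p (hp : p ∈ T) => int_cut om hM1 (hc p hp) hom
  -- pointwise identity
  have hpt : ∀ u ∈ Set.Icc 1 M, om u * PS w ((w : ℝ) ^ (v / (u + 1)))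
      = ∑ p ∈ T, (1 / (p : ℝ)) * (if u ≤ v * Real.log w / Real.log p - 1 then om u else 0) := by
    intro u hu
    have hu1 : 1 ≤ u := hu.1
    unfold PS
    rw [Finset.mul_sum]
    have e : ∀ p ∈ T, (1 / (p : ℝ)) * (if u ≤ v * Real.log w / Real.log p - 1 then om u else 0)
        = if u ≤ v * Real.log w / Real.log p - 1 then om u * (1 / (p : ℝ)) else 0 := by
      intro p _
      split_ifs <;> ring
    rw [Finset.sum_congr rfl e, ← Finset.sum_filter]
    apply Finset.sum_congr _ fun _ _ => rfl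
    ext p
    rw [hT]
    simp only [Finset.mem_filter, Finset.mem_Icc]
    have hkey : ∀ p : ℕ, w ≤ p → (p ≤ ⌊(w : ℝ) ^ (v / (u + 1))⌋₊ ↔
        u ≤ v * Real.log w / Real.log p - 1) := by
      intro p hwp
      have hp0 : (0 : ℝ) < p := by
        have : (w : ℝ) ≤ p := by exact_mod_cast hwp
        linarith
      have hlp : 0 < Real.log p := lt_of_lt_of_le hl
        (Real.log_le_log (by linarith) (by exact_mod_cast hwp))
      rw [Nat.le_floor_iff (by positivity), Real.le_rpow_iff_log_le hp0 (by linarith)]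
      rw [div_mul_eq_mul_div, le_div_iff₀ (by linarith), le_sub_iff_add_le, le_div_iff₀ hlp,
        mul_comm (u + 1)]
    constructor
    · rintro ⟨⟨h1, h2⟩, h3⟩
      refine ⟨⟨⟨h1, ?_⟩, h3⟩, (hkey p h1).mp h2⟩
      refine h2.trans (Nat.floor_le_floor ?_)
      apply Real.rpow_le_rpow_of_exponent_le hw1.le
      rw [div_le_iff₀ (by linarith)]
      nlinarith
    · rintro ⟨⟨⟨h1, h2⟩, h3⟩, h4⟩
      exact ⟨⟨h1, (hkey p h1).mpr h4⟩, h3⟩
  have hsumint : IntervalIntegrable (fun u => ∑ p ∈ T, (1 / (p : ℝ)) *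
      (if u ≤ v * Real.log w / Real.log p - 1 then om u else 0)) volume 1 M := by
    have h2 := IntervalIntegrable.sum (μ := volume) (a := 1) (b := M) T
      (f := fun p u => (1 / (p : ℝ)) *
        (if u ≤ v * Real.log w / Real.log p - 1 then om u else 0))
      (fun p hp => ((hcut p hp).1.const_mul (1 / (p : ℝ))))
    have e : (∑ p ∈ T, fun u => (1 / (p : ℝ)) *
        (if u ≤ v * Real.log w / Real.log p - 1 then om u else 0)) =
        fun u => ∑ p ∈ T, (1 / (p : ℝ)) *
        (if u ≤ v * Real.log w / Real.log p - 1 then om u else 0) := by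
      funext u
      simp only [Finset.sum_apply]
    rw [← e]
    exact h2
  constructor
  · refine hsumint.congr ?_
    intro u hu
    rw [Set.uIoc_of_le hM1] at hu
    exact (hpt u ⟨hu.1.le, hu.2⟩).symm
  · have e1 : ∫ u in (1 : ℝ)..M, om u * PS w ((w : ℝ) ^ (v / (u + 1)))
        = ∫ u in (1 : ℝ)..M, ∑ p ∈ T, (1 / (p : ℝ)) *
          (if u ≤ v * Real.log w / Real.log p - 1 then om u else 0) := by
      apply integral_congr
      intro u hu
      rw [Set.uIcc_of_le hM1] at hu
      exact hpt u hu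
    rw [e1, intervalIntegral.integral_finsetSum
      (fun p hp => ((hcut p hp).1.const_mul (1 / (p : ℝ))))]
    have e2 : PS w ((w : ℝ) ^ v) = ∑ p ∈ T, 1 / (p : ℝ) := rfl
    rw [e2, ← Finset.sum_add_distrib]
    apply Finset.sum_congr rfl
    intro p hp
    rw [intervalIntegral.integral_const_mul, (hcut p hp).2, FF_eq_int_om']
    ring

lemma sum_FF_est (C : ℝ) (hC0 : 0 ≤ C)
    (hC : ∀ w : ℕ, 2 ≤ w → ∀ t : ℝ, 1 ≤ t → |PS w ((w : ℝ) ^ t) - Real.log t| ≤ C / Real.log w)
    {w : ℕ} (hw : 2 ≤ w) {v : ℝ} (hv : 1 ≤ v) :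
    |1 + ∑ p ∈ (Finset.Icc w ⌊(w : ℝ) ^ v⌋₊).filter Nat.Prime,
      (1 / (p : ℝ)) * FF (v * Real.log w / Real.log p - 1) - FF v|
    ≤ C / Real.log w * FF v := by
  obtain ⟨hint, heq⟩ := sum_FF hw hv
  have hw1 : (1 : ℝ) < w := by exact_mod_cast hw
  have hl : 0 < Real.log w := Real.log_pos hw1
  have hCl : 0 ≤ C / Real.log w := by positivity
  rw [heq, FF_log hv]
  have h1 := hC w hw v hv
  rcases le_total v 2 with h | h
  · rw [max_eq_right (by linarith)]
    simp only [integral_same, add_zero]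
    have e : 1 + PS w ((w : ℝ) ^ v) - (1 + Real.log v) = PS w ((w : ℝ) ^ v) - Real.log v := by ring
    rw [e]
    have h2 : 0 ≤ Real.log v := Real.log_nonneg hv
    calc |PS w ((w : ℝ) ^ v) - Real.log v| ≤ C / Real.log w * 1 := by rw [mul_one]; exact h1
      _ ≤ C / Real.log w * (1 + Real.log v) :=
          mul_le_mul_of_nonneg_left (by linarith) hCl
  · rw [max_eq_left (by linarith)] at hint ⊢
    have hint2 : IntervalIntegrable (fun u => om u * Real.log (v / (u + 1))) volume 1 (v - 1) := by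
      apply ContinuousOn.intervalIntegrable
      rw [Set.uIcc_of_le (by linarith)]
      apply ContinuousOn.mul
      · exact om_continuousOn.mono (fun u hu => by
          have := hu.1
          show (0 : ℝ) < u
          linarith)
      · apply ContinuousOn.log
        · apply ContinuousOn.div (by fun_prop) (by fun_prop)
          intro u hu
          linarith [hu.1]
        · intro u hu
          have : 0 < u + 1 := by linarith [hu.1]
          positivity
    have e : 1 + (PS w ((w : ℝ) ^ v)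
        + ∫ u in (1 : ℝ)..(v - 1), om u * PS w ((w : ℝ) ^ (v / (u + 1))))
        - (1 + Real.log v + ∫ u in (1 : ℝ)..(v - 1), om u * Real.log (v / (u + 1)))
        = (PS w ((w : ℝ) ^ v) - Real.log v)
          + ∫ u in (1 : ℝ)..(v - 1), om u * (PS w ((w : ℝ) ^ (v / (u + 1)))
            - Real.log (v / (u + 1))) := by
      have : ∫ u in (1 : ℝ)..(v - 1), om u * (PS w ((w : ℝ) ^ (v / (u + 1)))
            - Real.log (v / (u + 1)))
          = (∫ u in (1 : ℝ)..(v - 1), om u * PS w ((w : ℝ) ^ (v / (u + 1))))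
          - ∫ u in (1 : ℝ)..(v - 1), om u * Real.log (v / (u + 1)) := by
        rw [← intervalIntegral.integral_sub hint hint2]
        apply integral_congr
        intro u _
        simp only
        ring
      rw [this]; ring
    rw [e]
    have h2 : |∫ u in (1 : ℝ)..(v - 1), om u * (PS w ((w : ℝ) ^ (v / (u + 1)))
            - Real.log (v / (u + 1)))| ≤ ∫ u in (1 : ℝ)..(v - 1), om u * (C / Real.log w) := by
      have := norm_integral_le_of_norm_le (μ := volume) (a := 1) (b := v - 1)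
        (f := fun u => om u * (PS w ((w : ℝ) ^ (v / (u + 1))) - Real.log (v / (u + 1))))
        (g := fun u => om u * (C / Real.log w)) (by linarith) ?_ ?_
      · simpa [Real.norm_eq_abs] using this
      · filter_upwards with u hu
        have hu0 : 0 < u := by linarith [hu.1]
        have hv1 : 1 ≤ v / (u + 1) := by
          rw [le_div_iff₀ (by linarith)]
          linarith [hu.2]
        rw [Real.norm_eq_abs, abs_mul, abs_of_pos (om_pos hu0)]
        exact mul_le_mul_of_nonneg_left (hC w hw _ hv1) (om_pos hu0).le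
      · exact (om_intervalIntegrable one_pos (by linarith)).mul_const _
    rw [intervalIntegral.integral_mul_const] at h2
    have h3 : FF (v - 1) ≤ FF v := FF_mono (by linarith)
    have h4 := FF_eq_int_om (v := v - 1) (by linarith)
    have hF : 1 + Real.log v + ∫ u in (1 : ℝ)..(v - 1), om u * Real.log (v / (u + 1)) = FF v := by
      have := FF_log hv
      rw [max_eq_left (by linarith)] at this
      exact this.symm
    rw [hF]
    calc |(PS w ((w : ℝ) ^ v) - Real.log v)
          + ∫ u in (1 : ℝ)..(v - 1), om u * (PS w ((w : ℝ) ^ (v / (u + 1)))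
            - Real.log (v / (u + 1)))|
        ≤ C / Real.log w + (∫ u in (1 : ℝ)..(v - 1), om u) * (C / Real.log w) :=
          (abs_add_le _ _).trans (add_le_add h1 h2)
      _ = C / Real.log w * FF (v - 1) := by rw [h4]; ring
      _ ≤ C / Real.log w * FF v := mul_le_mul_of_nonneg_left h3 hCl

lemma RR_small {w : ℕ} (hw : 2 ≤ w) {v : ℝ} (hv0 : 0 ≤ v) (hv : v < 1) :
    RR w ((w : ℝ) ^ v) = 1 := by
  have hw1 : (1 : ℝ) < w := by exact_mod_cast hw
  rw [RR_buchstab (Real.one_le_rpow hw1.le hv0)]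
  have : (Finset.Icc w ⌊(w : ℝ) ^ v⌋₊).filter Nat.Prime = ∅ := by
    rw [Finset.Icc_eq_empty, Finset.filter_empty]
    intro h
    have h1 : (w : ℝ) ≤ (w : ℝ) ^ v := by
      have := (Nat.le_floor_iff (by positivity)).mp h
      exact this
    have h2 : (w : ℝ) ^ v < (w : ℝ) ^ (1 : ℝ) := Real.rpow_lt_rpow_of_exponent_lt hw1 hv
    rw [Real.rpow_one] at h2
    linarith
  rw [this]
  simp

theorem RR_est (N : ℕ) : ∃ C : ℝ, 0 ≤ C ∧ ∀ w : ℕ, 2 ≤ w → ∀ v : ℝ, 0 ≤ v → v ≤ N →
    |RR w ((w : ℝ) ^ v) - FF v| ≤ C / Real.log w := by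
  obtain ⟨C, hC0, hC⟩ := exists_PS
  induction N with
  | zero =>
    refine ⟨0, le_rfl, ?_⟩
    intro w hw v hv0 hv
    have : v = 0 := le_antisymm (by simpa using hv) hv0
    subst this
    rw [RR_small hw le_rfl one_pos, FF_of_le_one (by norm_num)]
    simp
  | succ N ih =>
    obtain ⟨D, hD0, hD⟩ := ih
    have hl2 : 0 < Real.log 2 := Real.log_pos (by norm_num)
    have hlN : 0 ≤ Real.log (N + 1) :=
      Real.log_nonneg (by have : (0 : ℝ) ≤ N := Nat.cast_nonneg N; linarith)
    have hFN : 1 ≤ FF (N + 1) := one_le_FF _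
    refine ⟨D * (Real.log (N + 1) + C / Real.log 2) + C * FF (N + 1), by positivity, ?_⟩
    intro w hw v hv0 hv
    have hw1 : (1 : ℝ) < w := by exact_mod_cast hw
    have hw2 : (2 : ℝ) ≤ w := by exact_mod_cast hw
    have hl : 0 < Real.log w := Real.log_pos hw1
    rcases lt_or_ge v 1 with h1 | h1
    · rw [RR_small hw hv0 h1, FF_of_le_one h1.le, sub_self, abs_zero]
      positivity
    push_cast at hv
    rw [RR_buchstab (Real.one_le_rpow hw1.le hv0)]
    set T := (Finset.Icc w ⌊(w : ℝ) ^ v⌋₊).filter Nat.Prime with hT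
    have hterm : ∀ p ∈ T, |(1 / (p : ℝ)) * RR p ((w : ℝ) ^ v / p)
        - (1 / (p : ℝ)) * FF (v * Real.log w / Real.log p - 1)|
        ≤ (1 / (p : ℝ)) * (D / Real.log w) := by
      intro p hp
      rw [hT, Finset.mem_filter, Finset.mem_Icc] at hp
      obtain ⟨⟨hwp, hpx⟩, hpp⟩ := hp
      have hp0 : (0 : ℝ) < p := by exact_mod_cast hpp.pos
      have hlp : Real.log w ≤ Real.log p := Real.log_le_log (by linarith) (by exact_mod_cast hwp)
      have hlp0 : 0 < Real.log p := by linarith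
      have hpx' : (p : ℝ) ≤ (w : ℝ) ^ v := (Nat.le_floor_iff (by positivity)).mp hpx
      have e : (w : ℝ) ^ v / p = (p : ℝ) ^ (v * Real.log w / Real.log p - 1) := by
        rw [Real.rpow_def_of_pos hp0, mul_sub, mul_one, mul_div_cancel₀ _ hlp0.ne',
          Real.exp_sub, Real.exp_log hp0, mul_comm v, ← Real.rpow_def_of_pos (by linarith)]
      rw [e, ← mul_sub, abs_mul, abs_of_nonneg (by positivity : 0 ≤ 1 / (p : ℝ))]
      apply mul_le_mul_of_nonneg_left _ (by positivity)
      have hv1 : 0 ≤ v * Real.log w / Real.log p - 1 := by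
        rw [sub_nonneg, le_div_iff₀ hlp0, one_mul, ← Real.log_rpow (by linarith)]
        exact Real.log_le_log hp0 hpx'
      have hv2 : v * Real.log w / Real.log p - 1 ≤ N := by
        have : v * Real.log w / Real.log p ≤ v := by
          rw [div_le_iff₀ hlp0]
          exact mul_le_mul_of_nonneg_left hlp hv0
        linarith
      exact (hD p hpp.two_le _ hv1 hv2).trans (div_le_div_of_nonneg_left hD0 hl hlp)
    have hA : |∑ p ∈ T, (1 / (p : ℝ)) * RR p ((w : ℝ) ^ v / p)
        - ∑ p ∈ T, (1 / (p : ℝ)) * FF (v * Real.log w / Real.log p - 1)|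
        ≤ PS w ((w : ℝ) ^ v) * (D / Real.log w) := by
      rw [← Finset.sum_sub_distrib]
      refine (Finset.abs_sum_le_sum_abs _ _).trans ((Finset.sum_le_sum hterm).trans ?_)
      rw [← Finset.sum_mul]
      exact le_rfl
    have hB := sum_FF_est C hC0 hC hw h1
    rw [← hT] at hB
    have hPS : PS w ((w : ℝ) ^ v) ≤ Real.log (N + 1) + C / Real.log 2 := by
      have h2 := (abs_le.mp (hC w hw v h1)).2
      have h3 : Real.log v ≤ Real.log (N + 1) := Real.log_le_log (by linarith) hv
      have h4 : C / Real.log w ≤ C / Real.log 2 :=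
        div_le_div_of_nonneg_left hC0 hl2 (Real.log_le_log (by norm_num) hw2)
      linarith
    have hFv : FF v ≤ FF (N + 1) := FF_mono hv
    have hDl : 0 ≤ D / Real.log w := by positivity
    have hCl : 0 ≤ C / Real.log w := by positivity
    calc |1 + ∑ p ∈ T, (1 / (p : ℝ)) * RR p ((w : ℝ) ^ v / p) - FF v|
        = |(∑ p ∈ T, (1 / (p : ℝ)) * RR p ((w : ℝ) ^ v / p)
            - ∑ p ∈ T, (1 / (p : ℝ)) * FF (v * Real.log w / Real.log p - 1))
          + (1 + ∑ p ∈ T, (1 / (p : ℝ)) * FF (v * Real.log w / Real.log p - 1) - FF v)| := by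
          congr 1; ring
      _ ≤ PS w ((w : ℝ) ^ v) * (D / Real.log w) + C / Real.log w * FF v :=
          (abs_add_le _ _).trans (add_le_add hA hB)
      _ ≤ (Real.log (N + 1) + C / Real.log 2) * (D / Real.log w)
          + C / Real.log w * FF (N + 1) := by
          apply add_le_add
          · exact mul_le_mul_of_nonneg_right hPS hDl
          · exact mul_le_mul_of_nonneg_left hFv hCl
      _ = _ := by ring

/-- `R(z + 1, z ^ v) → F(v)` -/
theorem RR_tendsto {v : ℝ} (hv : 0 ≤ v) :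
    Tendsto (fun z : ℕ => RR (z + 1) ((z : ℝ) ^ v)) atTop (𝓝 (FF v)) := by
  obtain ⟨N, hN⟩ := exists_nat_ge v
  obtain ⟨C, hC0, hC⟩ := RR_est N
  -- the exponent with respect to `z + 1`
  have hlogz : Tendsto (fun z : ℕ => Real.log ((z : ℝ) + 1)) atTop atTop :=
    Real.tendsto_log_atTop.comp
      ((tendsto_natCast_atTop_atTop (R := ℝ)).atTop_add tendsto_const_nhds)
  have hdiff : Tendsto (fun z : ℕ => Real.log ((z : ℝ) + 1) - Real.log z) atTop (𝓝 0) :=
    Real.tendsto_log_nat_add_one_sub_log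
  have hexp : Tendsto (fun z : ℕ => v * (Real.log z / Real.log ((z : ℝ) + 1))) atTop (𝓝 v) := by
    have h1 : Tendsto (fun z : ℕ => 1 - (Real.log ((z : ℝ) + 1) - Real.log z)
        / Real.log ((z : ℝ) + 1)) atTop (𝓝 (1 - 0)) :=
      (hdiff.div_atTop hlogz).const_sub 1
    rw [sub_zero] at h1
    have h2 := h1.const_mul v
    rw [mul_one] at h2
    refine h2.congr' ?_
    filter_upwards [hlogz.eventually_gt_atTop 0] with z hz
    congr 1
    field_simp
    ring
  have hF : Tendsto (fun z : ℕ => FF (v * (Real.log z / Real.log ((z : ℝ) + 1)))) atTop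
      (𝓝 (FF v)) := (FF_continuous.tendsto v).comp hexp
  have herr : Tendsto (fun z : ℕ => RR (z + 1) ((z : ℝ) ^ v)
      - FF (v * (Real.log z / Real.log ((z : ℝ) + 1)))) atTop (𝓝 0) := by
    have hC' : Tendsto (fun z : ℕ => C / Real.log ((z : ℝ) + 1)) atTop (𝓝 0) :=
      hlogz.const_div_atTop C
    apply squeeze_zero_norm' _ hC'
    filter_upwards [eventually_ge_atTop 1] with z hz
    have hz1 : (1 : ℝ) ≤ z := by exact_mod_cast hz
    have hl0 : 0 ≤ Real.log z := Real.log_nonneg hz1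
    have hl1 : 0 < Real.log ((z : ℝ) + 1) := Real.log_pos (by linarith)
    have hle : Real.log z ≤ Real.log ((z : ℝ) + 1) := Real.log_le_log (by linarith) (by linarith)
    have e : (z : ℝ) ^ v = (((z + 1 : ℕ) : ℝ)) ^ (v * (Real.log z / Real.log ((z : ℝ) + 1))) := by
      push_cast
      rw [Real.rpow_def_of_pos (by linarith), Real.rpow_def_of_pos (by linarith)]
      congr 1
      field_simp
    rw [Real.norm_eq_abs, e]
    have h := hC (z + 1) (by omega) (v * (Real.log z / Real.log ((z : ℝ) + 1)))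
      (by positivity)
      (by
        refine le_trans ?_ hN
        calc v * (Real.log z / Real.log ((z : ℝ) + 1)) ≤ v * 1 := by
              apply mul_le_mul_of_nonneg_left _ hv
              rw [div_le_one hl1]; exact hle
          _ = v := mul_one v)
    push_cast at h ⊢
    exact h
  have := herr.add hF
  simpa using this

/-- the sum of `1/n` over the `n` in `(x, y]` free of prime factors `≤ z` -/
noncomputable def roughLogSum (z : ℕ) (x y : ℝ) : ℝ :=
  ∑ n ∈ (Finset.Ioc ⌊x⌋₊ ⌊y⌋₊).filter (fun n => Nat.Coprime n (primorial z)), (1 : ℝ) / n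

lemma coprime_primorial_iff {n z : ℕ} : Nat.Coprime n (primorial z) ↔ RoughFrom (z + 1) n := by
  unfold primorial RoughFrom
  rw [Nat.coprime_prod_right_iff]
  constructor
  · intro h p hp hpn
    by_contra hc
    have h1 := h p (by
      rw [Finset.mem_filter, Finset.mem_range]
      exact ⟨by omega, hp⟩)
    have h2 : p ∣ Nat.gcd n p := Nat.dvd_gcd hpn dvd_rfl
    rw [h1] at h2
    exact hp.one_lt.ne' (Nat.dvd_one.mp h2)
  · intro h p hp
    rw [Finset.mem_filter, Finset.mem_range] at hp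
    rw [Nat.coprime_comm, Nat.Prime.coprime_iff_not_dvd hp.2]
    intro hd
    have := h p hp.2 hd
    omega

lemma roughLogSum_eq {z : ℕ} {x y : ℝ} (hxy : x ≤ y) :
    roughLogSum z x y = RR (z + 1) y - RR (z + 1) x := by
  unfold roughLogSum RR
  have hfl : ⌊x⌋₊ ≤ ⌊y⌋₊ := Nat.floor_le_floor hxy
  have e : rset (z + 1) ⌊y⌋₊ = rset (z + 1) ⌊x⌋₊ ∪
      (Finset.Ioc ⌊x⌋₊ ⌊y⌋₊).filter (fun n => Nat.Coprime n (primorial z)) := by
    ext n
    rw [Finset.mem_union, mem_rset, mem_rset, Finset.mem_filter, Finset.mem_Ioc,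
      coprime_primorial_iff]
    constructor
    · rintro ⟨⟨h1, h2⟩, h3⟩
      rcases le_or_gt n ⌊x⌋₊ with h | h
      · exact Or.inl ⟨⟨h1, h⟩, h3⟩
      · exact Or.inr ⟨⟨h, h2⟩, h3⟩
    · rintro (⟨⟨h1, h2⟩, h3⟩ | ⟨⟨h1, h2⟩, h3⟩)
      · exact ⟨⟨h1, h2.trans hfl⟩, h3⟩
      · exact ⟨⟨by omega, h2⟩, h3⟩
  rw [e, Finset.sum_union]
  · ring
  · rw [Finset.disjoint_left]
    intro n hn hn'
    rw [mem_rset] at hn
    rw [Finset.mem_filter, Finset.mem_Ioc] at hn'
    omega

theorem roughLogSum_tendsto {v₁ v₂ : ℝ} (h1 : 1 ≤ v₁) (h2 : v₁ < v₂) :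
    Tendsto (fun z : ℕ => roughLogSum z ((z : ℝ) ^ v₁) ((z : ℝ) ^ v₂)) atTop
      (𝓝 (∫ x in v₁..v₂, om x)) := by
  have h := (RR_tendsto (v := v₂) (by linarith)).sub (RR_tendsto (v := v₁) (by linarith))
  rw [FF_sub h1 h2.le] at h
  refine h.congr' ?_
  filter_upwards [eventually_ge_atTop 1] with z hz
  rw [roughLogSum_eq]
  exact Real.rpow_le_rpow_of_exponent_le (by exact_mod_cast hz) h2.le

end Pool.Agent.MA
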