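import Mathlib

/-!
# The adjoint function of Buchstab's function
-/

set_option autoImplicit false

namespace Pool.Agent.MA

open Filter Topology Set MeasureTheory intervalIntegral

/-- `(1 - e^{-t}) / t` -/
noncomputable def ph (t : ℝ) : ℝ := dslope (fun t => -Real.exp (-t)) 0 t

lemma ph_mul (t : ℝ) : t * ph t = 1 - Real.exp (-t) := by
  have h := sub_smul_dslope (fun t : ℝ => -Real.exp (-t)) 0 t
  simp only [sub_zero, smul_eq_mul, neg_zero, Real.exp_zero] at h
  unfold ph
  rw [h]; ring

lemma ph_continuous : Continuous ph := by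
  have hd : Differentiable ℝ (fun t : ℝ => -Real.exp (-t)) := by fun_prop
  rw [continuous_iff_continuousAt]
  intro t
  rcases eq_or_ne t 0 with rfl | ht
  · exact continuousAt_dslope_same.2 (hd 0)
  · exact (continuousAt_dslope_of_ne ht).2 (hd t).continuousAt

lemma ph_zero : ph 0 = 1 := by
  unfold ph
  rw [dslope_same]
  have : HasDerivAt (fun t : ℝ => -Real.exp (-t)) 1 0 := by
    have h1 : HasDerivAt (fun t : ℝ => Real.exp (-t)) (Real.exp (-0) * (-1)) (0 : ℝ) :=
      (hasDerivAt_neg (0 : ℝ)).exp
    have h2 := h1.neg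
    simp only [neg_zero, Real.exp_zero, mul_neg, mul_one, neg_neg] at h2
    exact h2
  exact this.deriv

lemma ph_nonneg {t : ℝ} (ht : 0 ≤ t) : 0 ≤ ph t := by
  rcases ht.eq_or_lt with rfl | h
  · rw [ph_zero]; norm_num
  · have h1 := ph_mul t
    have h2 : Real.exp (-t) ≤ 1 := Real.exp_le_one_iff.mpr (by linarith)
    by_contra hc
    push Not at hc
    have := mul_neg_of_pos_of_neg h hc
    linarith

lemma ph_le_one {t : ℝ} (ht : 0 ≤ t) : ph t ≤ 1 := by
  rcases ht.eq_or_lt with rfl | h
  · rw [ph_zero]
  · have h1 := ph_mul t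
    have h2 : -t + 1 ≤ Real.exp (-t) := Real.add_one_le_exp (-t)
    by_contra hc
    push Not at hc
    have := mul_lt_mul_of_pos_left hc h
    linarith

/-- `Ein x = ∫_0^x (1 - e^{-t}) / t dt` -/
noncomputable def Ein (x : ℝ) : ℝ := ∫ t in (0 : ℝ)..x, ph t

lemma Ein_hasDerivAt (x : ℝ) : HasDerivAt Ein (ph x) x :=
  integral_hasDerivAt_right (ph_continuous.intervalIntegrable _ _)
    (ph_continuous.stronglyMeasurableAtFilter _ _) ph_continuous.continuousAt

lemma Ein_nonneg {x : ℝ} (hx : 0 ≤ x) : 0 ≤ Ein x :=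
  integral_nonneg hx (fun _ ht => ph_nonneg ht.1)

lemma Ein_le {x : ℝ} (hx : 0 ≤ x) : Ein x ≤ x := by
  have : Ein x ≤ ∫ _ in (0 : ℝ)..x, (1 : ℝ) := by
    apply integral_mono_on hx (ph_continuous.intervalIntegrable _ _) (by simp)
    intro t ht
    exact ph_le_one ht.1
  simpa using this

/-- `k(x) = exp (- Ein x)` -/
noncomputable def kk (x : ℝ) : ℝ := Real.exp (-Ein x)

lemma kk_pos (x : ℝ) : 0 < kk x := Real.exp_pos _

lemma kk_hasDerivAt (x : ℝ) : HasDerivAt kk (-(ph x * kk x)) x := by
  have h := (Ein_hasDerivAt x).neg.exp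
  have e : Real.exp (-Ein x) * -ph x = -(ph x * kk x) := by unfold kk; ring
  rw [← e]
  exact h

lemma kk_continuous : Continuous kk :=
  continuous_iff_continuousAt.mpr (fun x => (kk_hasDerivAt x).continuousAt)

lemma kk_le_one {x : ℝ} (hx : 0 ≤ x) : kk x ≤ 1 :=
  Real.exp_le_one_iff.mpr (by linarith [Ein_nonneg hx])

lemma le_kk {x : ℝ} (hx : 0 ≤ x) : Real.exp (-x) ≤ kk x :=
  Real.exp_le_exp.mpr (by linarith [Ein_le hx])

/-- `G(x) = x k(x)` -/
noncomputable def GG (x : ℝ) : ℝ := x * kk x

lemma GG_hasDerivAt (x : ℝ) : HasDerivAt GG (Real.exp (-x) * kk x) x := by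
  have h := (hasDerivAt_id x).mul (kk_hasDerivAt x)
  have e : 1 * kk x + id x * -(ph x * kk x) = Real.exp (-x) * kk x := by
    have := ph_mul x
    simp only [id]
    have e2 : 1 * kk x + x * -(ph x * kk x) = (1 - x * ph x) * kk x := by ring
    rw [e2, this]; ring
  rw [← e]
  exact h

/-- `h(u) = ∫_0^∞ e^{-ux} k(x) dx` -/
noncomputable def hh (u : ℝ) : ℝ := ∫ x in Ioi (0 : ℝ), Real.exp (-u * x) * kk x

lemma hh_integrable {u : ℝ} (hu : 0 < u) :
    IntegrableOn (fun x => Real.exp (-u * x) * kk x) (Ioi 0) := by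
  apply Integrable.mono' (exp_neg_integrableOn_Ioi 0 hu)
  · exact (Continuous.mul (by fun_prop) kk_continuous).aestronglyMeasurable
  · rw [ae_restrict_iff' measurableSet_Ioi]
    filter_upwards with x hx
    have h0 : (0 : ℝ) ≤ x := le_of_lt hx
    rw [Real.norm_eq_abs, abs_of_nonneg (mul_nonneg (Real.exp_pos _).le (kk_pos x).le)]
    calc Real.exp (-u * x) * kk x ≤ Real.exp (-u * x) * 1 :=
          mul_le_mul_of_nonneg_left (kk_le_one h0) (Real.exp_pos _).le
      _ = _ := mul_one _

lemma hh_le {u : ℝ} (hu : 0 < u) : hh u ≤ 1 / u := by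
  have h1 : ∫ x in Ioi (0 : ℝ), Real.exp (-u * x) = 1 / u := by
    rw [integral_exp_mul_Ioi (by linarith)]
    simp
  rw [← h1]
  apply setIntegral_mono_on (hh_integrable hu) (exp_neg_integrableOn_Ioi 0 hu) measurableSet_Ioi
  intro x hx
  have h0 : (0 : ℝ) ≤ x := le_of_lt hx
  calc Real.exp (-u * x) * kk x ≤ Real.exp (-u * x) * 1 :=
        mul_le_mul_of_nonneg_left (kk_le_one h0) (Real.exp_pos _).le
    _ = _ := mul_one _

lemma le_hh {u : ℝ} (hu : 0 < u) : 1 / (u + 1) ≤ hh u := by
  have h1 : ∫ x in Ioi (0 : ℝ), Real.exp (-(u + 1) * x) = 1 / (u + 1) := by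
    rw [integral_exp_mul_Ioi (by linarith)]
    simp only [mul_zero, Real.exp_zero]
    rw [neg_div_neg_eq]
  rw [← h1]
  apply setIntegral_mono_on (exp_neg_integrableOn_Ioi 0 (by linarith)) (hh_integrable hu)
    measurableSet_Ioi
  intro x hx
  have h0 : (0 : ℝ) ≤ x := le_of_lt hx
  calc Real.exp (-(u + 1) * x) = Real.exp (-u * x) * Real.exp (-x) := by
        rw [← Real.exp_add]; congr 1; ring
    _ ≤ _ := mul_le_mul_of_nonneg_left (le_kk h0) (Real.exp_pos _).le

lemma hh_pos {u : ℝ} (hu : 0 < u) : 0 < hh u :=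
  lt_of_lt_of_le (by positivity) (le_hh hu)

lemma mul_exp_le {b x : ℝ} (hb : 0 < b) :
    x * Real.exp (-b * x) ≤ 2 / b * Real.exp (-(b / 2) * x) := by
  have h1 : b / 2 * x + 1 ≤ Real.exp (b / 2 * x) := Real.add_one_le_exp _
  have h2 : x ≤ 2 / b * Real.exp (b / 2 * x) := by
    have : 2 / b * (b / 2 * x) ≤ 2 / b * Real.exp (b / 2 * x) :=
      mul_le_mul_of_nonneg_left (by linarith) (by positivity)
    have e : 2 / b * (b / 2 * x) = x := by field_simp
    linarith
  calc x * Real.exp (-b * x) ≤ 2 / b * Real.exp (b / 2 * x) * Real.exp (-b * x) :=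
        mul_le_mul_of_nonneg_right h2 (Real.exp_pos _).le
    _ = _ := by
        rw [mul_assoc, ← Real.exp_add]
        congr 2; ring

lemma GG_integral {u : ℝ} (hu : 0 < u) :
    ∫ x in Ioi (0 : ℝ), Real.exp (-u * x) * GG x = hh (u + 1) / u := by
  have hint : IntegrableOn (fun x => Real.exp (-u * x) * GG x) (Ioi 0) := by
    apply Integrable.mono' ((exp_neg_integrableOn_Ioi 0 (by positivity : 0 < u / 2)).const_mul
      (2 / u))
    · apply Continuous.aestronglyMeasurable
      unfold GG
      exact (by fun_prop : Continuous fun x : ℝ => Real.exp (-u * x)).mul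
        (continuous_id.mul kk_continuous)
    · rw [ae_restrict_iff' measurableSet_Ioi]
      filter_upwards with x hx
      have h0 : (0 : ℝ) < x := hx
      unfold GG
      have hk := kk_pos x
      rw [Real.norm_eq_abs, abs_of_nonneg (by positivity)]
      calc Real.exp (-u * x) * (x * kk x) = x * Real.exp (-u * x) * kk x := by ring
        _ ≤ x * Real.exp (-u * x) * 1 :=
            mul_le_mul_of_nonneg_left (kk_le_one h0.le) (by positivity)
        _ = x * Real.exp (-u * x) := mul_one _
        _ ≤ _ := mul_exp_le hu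
  have hint2 := hh_integrable (u := u + 1) (by linarith)
  have h := integral_Ioi_of_hasDerivAt_of_tendsto' (a := 0) (m := 0)
    (f := fun x => Real.exp (-u * x) * GG x)
    (f' := fun x => Real.exp (-(u + 1) * x) * kk x - u * (Real.exp (-u * x) * GG x))
    (by
      intro x _
      have h1 : HasDerivAt (fun x : ℝ => Real.exp (-u * x)) (Real.exp (-u * x) * (-u * 1)) x :=
        ((hasDerivAt_id x).const_mul (-u)).exp
      have h2 := h1.mul (GG_hasDerivAt x)
      have e : Real.exp (-u * x) * (-u * 1) * GG x + Real.exp (-u * x) * (Real.exp (-x) * kk x)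
          = Real.exp (-(u + 1) * x) * kk x - u * (Real.exp (-u * x) * GG x) := by
        have : Real.exp (-(u + 1) * x) = Real.exp (-u * x) * Real.exp (-x) := by
          rw [← Real.exp_add]; congr 1; ring
        rw [this]; ring
      rw [← e]
      exact h2)
    (hint2.sub (hint.const_mul u))
    (by
      apply squeeze_zero' (g := fun x => 2 / u * Real.exp (-(u / 2) * x))
      · filter_upwards [eventually_ge_atTop 0] with x hx
        unfold GG
        have := kk_pos x
        positivity
      · filter_upwards [eventually_ge_atTop 0] with x hx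
        unfold GG
        calc Real.exp (-u * x) * (x * kk x) = x * Real.exp (-u * x) * kk x := by ring
          _ ≤ x * Real.exp (-u * x) * 1 :=
              mul_le_mul_of_nonneg_left (kk_le_one hx) (by positivity)
          _ = x * Real.exp (-u * x) := mul_one _
          _ ≤ _ := mul_exp_le hu
      · have h1 : Tendsto (fun x : ℝ => -(u / 2) * x) atTop atBot :=
          tendsto_id.const_mul_atTop_of_neg (by linarith)
        have h2 := (Real.tendsto_exp_atBot.comp h1).const_mul (2 / u)
        simpa using h2)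
  rw [MeasureTheory.integral_sub hint2 (hint.const_mul u), MeasureTheory.integral_const_mul] at h
  have e0 : GG 0 = 0 := by unfold GG; simp
  simp only [e0, mul_zero, sub_zero] at h
  have h3 : hh (u + 1) = u * ∫ x in Ioi (0 : ℝ), Real.exp (-u * x) * GG x := by
    unfold hh
    linarith
  rw [h3]
  field_simp

lemma hh_hasDerivAt {u : ℝ} (hu : 0 < u) : HasDerivAt hh (-(hh (u + 1) / u)) u := by
  have h := (hasDerivAt_integral_of_dominated_loc_of_deriv_le (μ := volume.restrict (Ioi (0 : ℝ)))
    (F := fun v x => Real.exp (-v * x) * kk x)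
    (F' := fun v x => -(Real.exp (-v * x) * GG x))
    (x₀ := u) (s := Ioi (u / 2)) (bound := fun x => 2 / (u / 2) * Real.exp (-(u / 2 / 2) * x))
    (Ioi_mem_nhds (by linarith))
    (by
      filter_upwards with v
      exact (Continuous.mul (by fun_prop) kk_continuous).aestronglyMeasurable)
    (hh_integrable hu)
    (by
      apply Continuous.aestronglyMeasurable
      unfold GG
      exact ((by fun_prop : Continuous fun x : ℝ => Real.exp (-u * x)).mul
        (continuous_id.mul kk_continuous)).neg)
    (by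
      rw [ae_restrict_iff' measurableSet_Ioi]
      filter_upwards with x hx v hv
      have h0 : (0 : ℝ) < x := hx
      have hv' : u / 2 < v := hv
      unfold GG
      have hk := kk_pos x
      rw [norm_neg, Real.norm_eq_abs, abs_of_nonneg (by positivity)]
      calc Real.exp (-v * x) * (x * kk x) = x * Real.exp (-v * x) * kk x := by ring
        _ ≤ x * Real.exp (-v * x) * 1 :=
            mul_le_mul_of_nonneg_left (kk_le_one h0.le) (by positivity)
        _ = x * Real.exp (-v * x) := mul_one _
        _ ≤ x * Real.exp (-(u / 2) * x) := by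
            apply mul_le_mul_of_nonneg_left _ h0.le
            apply Real.exp_le_exp.mpr
            nlinarith
        _ ≤ _ := mul_exp_le (by linarith))
    ((exp_neg_integrableOn_Ioi 0 (by positivity)).const_mul _)
    (by
      filter_upwards with x v _
      have h1 : HasDerivAt (fun v : ℝ => Real.exp (-v * x)) (Real.exp (-v * x) * (-1 * x)) v :=
        ((hasDerivAt_neg v).mul_const x).exp
      have h2 := h1.mul_const (kk x)
      have e : Real.exp (-v * x) * (-1 * x) * kk x = -(Real.exp (-v * x) * GG x) := by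
        unfold GG; ring
      rw [← e]
      exact h2)).2
  rw [MeasureTheory.integral_neg, GG_integral hu] at h
  exact h

lemma hh_continuousOn : ContinuousOn hh (Ioi 0) := fun _ hu =>
  (hh_hasDerivAt hu).continuousAt.continuousWithinAt

lemma hh_intervalIntegrable {a b : ℝ} (ha : 0 < a) (hb : 0 < b) :
    IntervalIntegrable hh volume a b := by
  apply ContinuousOn.intervalIntegrable
  apply hh_continuousOn.mono
  intro x hx
  exact lt_of_lt_of_le (lt_min ha hb) hx.1

/-- the derivative of `∫_u^{u+1} h` -/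
lemma hh_int_hasDerivAt {u : ℝ} (hu : 0 < u) :
    HasDerivAt (fun u => ∫ x in u..(u + 1), hh x) (hh (u + 1) - hh u) u := by
  have hF : ∀ v : ℝ, 0 < v → HasDerivAt (fun v => ∫ x in u..v, hh x) (hh v) v := by
    intro v hv
    apply integral_hasDerivAt_right (hh_intervalIntegrable hu hv)
    · exact hh_continuousOn.stronglyMeasurableAtFilter isOpen_Ioi v hv
    · exact (hh_hasDerivAt hv).continuousAt
  have h1 := hF u hu
  have h2 : HasDerivAt (fun v => ∫ x in u..(v + 1), hh x) (hh (u + 1)) u := by
    have := (hF (u + 1) (by linarith)).comp u ((hasDerivAt_id u).add_const 1)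
    rw [mul_one] at this
    exact this
  refine (h2.sub h1).congr_of_eventuallyEq ?_
  filter_upwards [lt_mem_nhds hu] with v hv
  simp only [Pi.sub_apply]
  rw [integral_interval_sub_left]
  · exact hh_intervalIntegrable hu (by linarith)
  · exact hh_intervalIntegrable hu hv

/-- the adjoint identity `u h(u) + ∫_u^{u+1} h = 1` -/
lemma hh_adjoint {u : ℝ} (hu : 0 < u) : u * hh u + ∫ x in u..(u + 1), hh x = 1 := by
  have hE : ∀ v : ℝ, 0 < v → HasDerivAt (fun v => v * hh v + ∫ x in v..(v + 1), hh x) 0 v := by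
    intro v hv
    have h1 := ((hasDerivAt_id v).mul (hh_hasDerivAt hv)).add (hh_int_hasDerivAt hv)
    have e : 1 * hh v + id v * -(hh (v + 1) / v) + (hh (v + 1) - hh v) = 0 := by
      simp only [id]
      have hv' : v ≠ 0 := hv.ne'
      field_simp
      ring
    rw [← e]
    exact h1
  have hconst : ∀ v : ℝ, u ≤ v → v * hh v + ∫ x in v..(v + 1), hh x
      = u * hh u + ∫ x in u..(u + 1), hh x := by
    intro v hv
    exact constant_of_has_deriv_right_zero (a := u) (b := v)
      (fun x hx => (hE x (by linarith [hx.1])).continuousAt.continuousWithinAt)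
      (fun x hx => (hE x (by linarith [hx.1])).hasDerivWithinAt) v ⟨hv, le_rfl⟩
  have hb : ∀ v : ℝ, 0 < v → |v * hh v + (∫ x in v..(v + 1), hh x) - 1| ≤ 1 / v := by
    intro v hv
    have h1 : v * hh v ≤ 1 := by
      have := mul_le_mul_of_nonneg_left (hh_le hv) hv.le
      have e : v * (1 / v) = 1 := by field_simp
      linarith
    have h2 : 1 - 1 / v ≤ v * hh v := by
      have := mul_le_mul_of_nonneg_left (le_hh hv) hv.le
      have e : v * (1 / (v + 1)) = 1 - 1 / (v + 1) := by field_simp; ring
      have : 1 / (v + 1) ≤ 1 / v := one_div_le_one_div_of_le hv (by linarith)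
      linarith
    have h3 : 0 ≤ ∫ x in v..(v + 1), hh x := by
      apply integral_nonneg (by linarith)
      intro x hx
      exact (hh_pos (by linarith [hx.1])).le
    have h4 : ∫ x in v..(v + 1), hh x ≤ 1 / v := by
      have : ∫ x in v..(v + 1), hh x ≤ ∫ _ in v..(v + 1), 1 / v := by
        apply integral_mono_on (by linarith) (hh_intervalIntegrable hv (by linarith)) (by simp)
        intro x hx
        have h5 : 0 < x := by linarith [hx.1]
        exact (hh_le h5).trans (one_div_le_one_div_of_le hv hx.1)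
      simpa using this
    rw [abs_le]
    constructor <;> linarith
  have hlim : Tendsto (fun v : ℝ => 1 / v) atTop (𝓝 0) := by
    simpa using tendsto_inv_atTop_zero (𝕜 := ℝ)
  have hle : |u * hh u + (∫ x in u..(u + 1), hh x) - 1| ≤ 0 := by
    apply ge_of_tendsto hlim
    filter_upwards [eventually_ge_atTop u] with v hv
    rw [← hconst v hv]
    exact hb v (by linarith)
  have := abs_nonpos_iff.mp hle
  linarith

end Pool.Agent.MA
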