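import Pool.Agent.Lib.MP_bae66e_nt.MA.W4
import Pool.Agent.Lib.MP_bae66e_nt.AP3.Mert

/-!
# Mertens' third theorem
-/

set_option autoImplicit false

namespace Pool.Agent.MA

open Filter Topology Set MeasureTheory intervalIntegral

/-- `-log(1 - 1/p)` -/
noncomputable def wp (p : ℕ) : ℝ := -Real.log (1 - 1 / (p : ℝ))

/-- `Σ_{p ≤ n} -log(1 - 1/p)` -/
noncomputable def LL (n : ℕ) : ℝ := ∑ p ∈ (Finset.range (n + 1)).filter Nat.Prime, wp p

lemma neg_log_ge {x : ℝ} (hx : x < 1) : x ≤ -Real.log (1 - x) := by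
  have := Real.log_le_sub_one_of_pos (by linarith : 0 < 1 - x)
  linarith

lemma neg_log_le {x : ℝ} (hx0 : 0 ≤ x) (hx : x ≤ 1 / 2) : -Real.log (1 - x) ≤ x + 2 * x ^ 2 := by
  have h1 : 0 < 1 - x := by linarith
  rw [← Real.log_inv]
  have h2 := Real.log_le_sub_one_of_pos (inv_pos.mpr h1)
  refine h2.trans ?_
  rw [sub_le_iff_le_add, inv_eq_one_div, div_le_iff₀ h1]
  nlinarith [mul_nonneg hx0 hx0, mul_nonneg (mul_nonneg hx0 hx0) (by linarith : 0 ≤ 1 / 2 - x)]

lemma inv_prime_le {p : ℕ} (hp : p.Prime) : 1 / (p : ℝ) ≤ 1 / 2 := by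
  have h : (2 : ℝ) ≤ p := by exact_mod_cast hp.two_le
  exact div_le_div_of_nonneg_left (by norm_num) (by norm_num) h

lemma wp_ge {p : ℕ} (hp : p.Prime) : 1 / (p : ℝ) ≤ wp p :=
  neg_log_ge (by linarith [inv_prime_le hp])

lemma wp_le {p : ℕ} (hp : p.Prime) : wp p ≤ 1 / (p : ℝ) + 2 * (1 / (p : ℝ)) ^ 2 :=
  neg_log_le (by positivity) (inv_prime_le hp)

lemma wp_nonneg {p : ℕ} (hp : p.Prime) : 0 ≤ wp p :=
  le_trans (by positivity) (wp_ge hp)

lemma wp_le' {p : ℕ} (hp : p.Prime) : wp p ≤ 2 * (1 / (p : ℝ)) := by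
  have h1 := wp_le hp
  have h2 := inv_prime_le hp
  have h3 : 0 ≤ 1 / (p : ℝ) := by positivity
  nlinarith

lemma LL_sub {m n : ℕ} (h : m ≤ n) :
    LL n = LL m + ∑ p ∈ Lib.MP_bae66e_nt.AP3.prI m n, wp p := by
  unfold LL
  rw [← Finset.sum_union]
  · apply Finset.sum_congr _ fun _ _ => rfl
    ext p
    rw [Finset.mem_union, Lib.MP_bae66e_nt.AP3.mem_prI, Finset.mem_filter, Finset.mem_filter,
      Finset.mem_range, Finset.mem_range]
    constructor
    · rintro ⟨h1, h2⟩
      rcases le_or_gt p m with h3 | h3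
      · exact Or.inl ⟨by omega, h2⟩
      · exact Or.inr ⟨⟨h3, by omega⟩, h2⟩
    · rintro (⟨h1, h2⟩ | ⟨⟨h1, h2⟩, h3⟩)
      · exact ⟨by omega, h2⟩
      · exact ⟨by omega, h3⟩
  · rw [Finset.disjoint_left]
    intro p hp hp'
    rw [Finset.mem_filter, Finset.mem_range] at hp
    rw [Lib.MP_bae66e_nt.AP3.mem_prI] at hp'
    omega

lemma exists_LL_diff : ∃ C : ℝ, 0 ≤ C ∧ ∀ m n : ℕ, 2 ≤ m → m ≤ n →
    |(LL n - Real.log (Real.log n)) - (LL m - Real.log (Real.log m))| ≤ C / Real.log m := by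
  obtain ⟨C, hC0, hC⟩ := Lib.MP_bae66e_nt.AP3.exists_sum_inv_le
  refine ⟨C + 2, by linarith, ?_⟩
  intro m n hm hmn
  have hm2 : (2 : ℝ) ≤ m := by exact_mod_cast hm
  have hlm : 0 < Real.log m := Real.log_pos (by linarith)
  have hln : 0 < Real.log n := lt_of_lt_of_le hlm
    (Real.log_le_log (by linarith) (by exact_mod_cast hmn))
  have h1 := hC m n hm hmn
  rw [Real.log_div hln.ne' hlm.ne'] at h1
  have h2 : ∑ p ∈ Lib.MP_bae66e_nt.AP3.prI m n, 1 / (p : ℝ)
      ≤ ∑ p ∈ Lib.MP_bae66e_nt.AP3.prI m n, wp p :=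
    Finset.sum_le_sum fun p hp => wp_ge (Lib.MP_bae66e_nt.AP3.mem_prI.mp hp).2
  have h3 : ∑ p ∈ Lib.MP_bae66e_nt.AP3.prI m n, wp p
      ≤ ∑ p ∈ Lib.MP_bae66e_nt.AP3.prI m n, 1 / (p : ℝ) + 2 / Real.log m := by
    have h4 : ∑ p ∈ Lib.MP_bae66e_nt.AP3.prI m n, wp p
        ≤ ∑ p ∈ Lib.MP_bae66e_nt.AP3.prI m n, (1 / (p : ℝ) + 2 * (1 / (p : ℝ)) ^ 2) :=
      Finset.sum_le_sum fun p hp => wp_le (Lib.MP_bae66e_nt.AP3.mem_prI.mp hp).2
    rw [Finset.sum_add_distrib, ← Finset.mul_sum] at h4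
    have h5 : ∑ p ∈ Lib.MP_bae66e_nt.AP3.prI m n, (1 / (p : ℝ)) ^ 2 ≤ 1 / Real.log m := by
      calc ∑ p ∈ Lib.MP_bae66e_nt.AP3.prI m n, (1 / (p : ℝ)) ^ 2
          ≤ ∑ p ∈ Finset.Ioc m n, (1 / (p : ℝ)) ^ 2 := by
            apply Finset.sum_le_sum_of_subset_of_nonneg
            · exact Finset.filter_subset _ _
            · intro p _ _; positivity
        _ = ∑ p ∈ Finset.Ioc m n, ((p : ℝ) ^ 2)⁻¹ := by
            apply Finset.sum_congr rfl
            intro p _
            rw [one_div, inv_pow]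
        _ ≤ (m : ℝ)⁻¹ - (n : ℝ)⁻¹ := sum_Ioc_inv_sq_le_sub (by omega) hmn
        _ ≤ (m : ℝ)⁻¹ := by
            have : 0 ≤ (n : ℝ)⁻¹ := by positivity
            linarith
        _ ≤ 1 / Real.log m := by
            rw [← one_div]
            apply one_div_le_one_div_of_le hlm
            have := Real.log_le_sub_one_of_pos (by linarith : (0 : ℝ) < m)
            linarith
    have e : 2 / Real.log m = 2 * (1 / Real.log m) := by ring
    rw [e]
    linarith
  rw [LL_sub hmn]
  have e : (C + 2) / Real.log m = C / Real.log m + 2 / Real.log m := by ring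
  rw [e]
  have h20 : 0 ≤ 2 / Real.log m := by positivity
  rw [abs_le] at h1 ⊢
  constructor <;> linarith [h1.1, h1.2]

lemma exists_LL : ∃ c C : ℝ, 0 ≤ C ∧ ∀ n : ℕ, 2 ≤ n →
    |LL n - Real.log (Real.log n) - c| ≤ C / Real.log n := by
  obtain ⟨C, hC0, hC⟩ := exists_LL_diff
  have hlog : Tendsto (fun N : ℕ => Real.log ((N + 2 : ℕ) : ℝ)) atTop atTop :=
    Real.tendsto_log_atTop.comp (tendsto_natCast_atTop_atTop.comp (tendsto_add_atTop_nat 2))
  have hcau : CauchySeq (fun n : ℕ => LL (n + 2) - Real.log (Real.log ((n + 2 : ℕ) : ℝ))) := by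
    apply cauchySeq_of_le_tendsto_0' (fun N : ℕ => C / Real.log ((N + 2 : ℕ) : ℝ))
    · intro m n hmn
      rw [dist_comm, Real.dist_eq]
      exact hC (m + 2) (n + 2) (by omega) (by omega)
    · exact hlog.const_div_atTop C
  obtain ⟨c, hc⟩ := cauchySeq_tendsto_of_complete hcau
  refine ⟨c, C, hC0, ?_⟩
  intro m hm
  have h1 : Tendsto (fun n : ℕ => |(LL (n + 2) - Real.log (Real.log ((n + 2 : ℕ) : ℝ)))
      - (LL m - Real.log (Real.log m))|) atTop (𝓝 |c - (LL m - Real.log (Real.log m))|) :=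
    (hc.sub_const _).abs
  have h2 : |c - (LL m - Real.log (Real.log m))| ≤ C / Real.log m := by
    apply le_of_tendsto h1
    filter_upwards [eventually_ge_atTop m] with n hn
    exact hC m (n + 2) hm (by omega)
  rw [abs_sub_comm] at h2
  exact h2

lemma LL_mono : Monotone LL := by
  intro m n h
  rw [LL_sub h]
  have : 0 ≤ ∑ p ∈ Lib.MP_bae66e_nt.AP3.prI m n, wp p :=
    Finset.sum_nonneg fun p hp => wp_nonneg (Lib.MP_bae66e_nt.AP3.mem_prI.mp hp).2
  linarith

lemma LL_nonneg (n : ℕ) : 0 ≤ LL n :=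
  Finset.sum_nonneg fun _ hp => wp_nonneg (Finset.mem_filter.mp hp).2

/-- `L(e^y) = log y + c + O(y^{-1/2})` for all `y > 0` -/
lemma exists_LL_exp : ∃ c K : ℝ, 0 ≤ K ∧
    (∀ n : ℕ, 2 ≤ n → |LL n - Real.log (Real.log n) - c| ≤ K / Real.log n) ∧
    ∀ y : ℝ, 0 < y →
    |LL ⌊Real.exp y⌋₊ - (Real.log y + c)| ≤ K * y ^ (-(1 / 2) : ℝ) := by
  obtain ⟨c, C, hC0, hC⟩ := exists_LL
  have hL2 : 0 ≤ LL 2 := LL_nonneg 2
  refine ⟨c, 4 * C + 4 + (LL 2 + |c| + 2), by positivity, ?_, ?_⟩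
  · intro n hn
    have hln : 0 < Real.log n := Real.log_pos (by exact_mod_cast hn)
    refine (hC n hn).trans ?_
    apply div_le_div_of_nonneg_right _ hln.le
    have := abs_nonneg c
    linarith
  intro y hy
  rcases le_or_gt 1 y with h | h
  · set n := ⌊Real.exp y⌋₊ with hn
    have he : (2 : ℝ) ≤ Real.exp y := by
      have := Real.add_one_le_exp y
      linarith
    have hn2 : 2 ≤ n := Nat.le_floor (by exact_mod_cast he)
    have hn2' : (2 : ℝ) ≤ n := by exact_mod_cast hn2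
    have hn1 : (n : ℝ) ≤ Real.exp y := Nat.floor_le (Real.exp_pos y).le
    have hn3 : Real.exp y < n + 1 := Nat.lt_floor_add_one _
    have hlog2 : Real.log 2 < 0.7 := by
      have := Real.log_two_lt_d9
      linarith
    have hln1 : Real.log n ≤ y := by
      rw [Real.log_le_iff_le_exp (by linarith)]; exact hn1
    have hln2 : y - Real.log 2 ≤ Real.log n := by
      have h1 : Real.exp y ≤ 2 * n := by linarith
      have h2 : y ≤ Real.log (2 * n) := (Real.le_log_iff_exp_le (by linarith)).mpr h1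
      rw [Real.log_mul (by norm_num) (by linarith)] at h2
      linarith
    have hlny : y / 4 ≤ Real.log n := by linarith
    have hln0 : 0 < Real.log n := by linarith
    have h1 := hC n hn2
    have h2 : C / Real.log n ≤ 4 * C / y := by
      rw [div_le_div_iff₀ hln0 hy]
      nlinarith
    have h3 : |Real.log (Real.log n) - Real.log y| ≤ 4 / y := by
      have h4 : Real.log (Real.log n) ≤ Real.log y := Real.log_le_log hln0 hln1
      have h5 : Real.log y - Real.log (Real.log n) ≤ 4 / y := by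
        rw [← Real.log_div hy.ne' hln0.ne']
        have h6 := Real.log_le_sub_one_of_pos (by positivity : 0 < y / Real.log n)
        refine h6.trans ?_
        have e : y / Real.log n - 1 = (y - Real.log n) / Real.log n := by
          field_simp
        rw [e, div_le_div_iff₀ hln0 hy]
        nlinarith
      rw [abs_le]
      have : 0 ≤ 4 / y := by positivity
      constructor <;> linarith
    have h4 : |LL n - (Real.log y + c)| ≤ (4 * C + 4) / y := by
      have e : (4 * C + 4) / y = 4 * C / y + 4 / y := by ring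
      rw [e]
      rw [abs_le] at *
      constructor <;> linarith [h1.1, h1.2, h3.1, h3.2]
    refine h4.trans ?_
    have h5 : y ^ (-1 : ℝ) ≤ y ^ (-(1 / 2) : ℝ) :=
      Real.rpow_le_rpow_of_exponent_le h (by norm_num)
    rw [Real.rpow_neg_one] at h5
    calc (4 * C + 4) / y = (4 * C + 4) * y⁻¹ := by rw [div_eq_mul_inv]
      _ ≤ (4 * C + 4) * y ^ (-(1 / 2) : ℝ) := mul_le_mul_of_nonneg_left h5 (by linarith)
      _ ≤ _ := by
          apply mul_le_mul_of_nonneg_right _ (Real.rpow_nonneg hy.le _)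
          have := abs_nonneg c
          linarith
  · have hfl : ⌊Real.exp y⌋₊ ≤ 2 := by
      have h1 : Real.exp y < 3 := by
        have h2 : Real.exp y < Real.exp 1 := Real.exp_lt_exp.mpr h
        have h3 := Real.exp_one_lt_d9
        linarith
      have : ⌊Real.exp y⌋₊ < 3 := (Nat.floor_lt (Real.exp_pos y).le).mpr (by exact_mod_cast h1)
      omega
    have h1 : LL ⌊Real.exp y⌋₊ ≤ LL 2 := LL_mono hfl
    have h2 : 0 ≤ LL ⌊Real.exp y⌋₊ := LL_nonneg _
    have hp : 1 ≤ y ^ (-(1 / 2) : ℝ) := by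
      apply Real.one_le_rpow_of_pos_of_le_one_of_nonpos hy h.le (by norm_num)
    have h3 : |Real.log y| ≤ 2 * y ^ (-(1 / 2) : ℝ) := by
      have h1 := Real.abs_log_mul_self_rpow_lt y (1 / 2) hy h.le (by norm_num)
      have hp : 0 < y ^ ((1 : ℝ) / 2) := Real.rpow_pos_of_pos hy _
      rw [abs_mul, abs_of_pos hp] at h1
      rw [Real.rpow_neg hy.le, ← div_eq_mul_inv, le_div_iff₀ hp]
      have : (1 : ℝ) / (1 / 2) = 2 := by norm_num
      linarith
    have h4 : |LL ⌊Real.exp y⌋₊ - (Real.log y + c)| ≤ LL 2 + |c| + |Real.log y| := by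
      have h5 := abs_le.mp (le_refl |c|)
      have h6 := abs_le.mp (le_refl |Real.log y|)
      rw [abs_le]
      constructor <;> linarith [h5.1, h5.2, h6.1, h6.2]
    refine h4.trans ?_
    have h5 : 0 ≤ LL 2 + |c| := by positivity
    have h6 : LL 2 + |c| ≤ (LL 2 + |c|) * y ^ (-(1 / 2) : ℝ) := by
      nlinarith
    have h7 : 0 ≤ (4 * C + 4) * y ^ (-(1 / 2) : ℝ) := by positivity
    nlinarith

lemma TT_point {s : ℝ} (hs : 0 < s) (t : ℝ) :
    Real.exp (-t) * LL ⌊Real.exp (t / s)⌋₊ = ∑' i : Nat.Primes,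
      (Ici (s * Real.log ((i : ℕ) : ℝ))).indicator (fun t => wp i * Real.exp (-t)) t := by
  have hp1 : ∀ p : Nat.Primes, (1 : ℝ) < ((p : ℕ) : ℝ) := fun p => by
    exact_mod_cast p.2.one_lt
  -- pointwise sum
  have hmem : ∀ p : Nat.Primes, (s * Real.log ((p : ℕ) : ℝ) ≤ t ↔
      (p : ℕ) ≤ ⌊Real.exp (t / s)⌋₊) := by
    intro p
    have hp0 : 0 < ((p : ℕ) : ℝ) := by linarith [hp1 p]
    rw [Nat.le_floor_iff (Real.exp_pos _).le, ← Real.log_le_iff_le_exp hp0, le_div_iff₀ hs,
      mul_comm]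
  set n := ⌊Real.exp (t / s)⌋₊ with hn
  have hset : ∀ p : Nat.Primes,
      (Ici (s * Real.log ((p : ℕ) : ℝ))).indicator (fun t => wp p * Real.exp (-t)) t
      = (fun q : ℕ => if q ≤ n then wp q * Real.exp (-t) else 0) (p : ℕ) := by
    intro p
    by_cases hc : (p : ℕ) ≤ n
    · rw [Set.indicator_of_mem]
      · simp only [if_pos hc]
      · exact (hmem p).mpr hc
    · rw [Set.indicator_of_notMem]
      · simp only [if_neg hc]
      · intro h'
        exact hc ((hmem p).mp h')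
  rw [tsum_congr hset]
  have e1 : ∑' p : Nat.Primes, (fun q : ℕ => if q ≤ n then wp q * Real.exp (-t) else 0) (p : ℕ)
      = ∑' q : ℕ, ({q : ℕ | q.Prime}.indicator
          (fun q : ℕ => if q ≤ n then wp q * Real.exp (-t) else 0)) q :=
    tsum_subtype {q : ℕ | q.Prime} (fun q : ℕ => if q ≤ n then wp q * Real.exp (-t) else 0)
  rw [e1, tsum_eq_sum (s := (Finset.range (n + 1)).filter Nat.Prime)]
  · unfold LL
    rw [Finset.mul_sum]
    apply Finset.sum_congr rfl
    intro q hq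
    rw [Finset.mem_filter, Finset.mem_range] at hq
    rw [Set.indicator_of_mem (by exact hq.2), if_pos (by omega)]
    ring
  · intro q hq
    rw [Finset.mem_filter, Finset.mem_range] at hq
    by_cases hqp : q.Prime
    · rw [Set.indicator_of_mem (by exact hqp), if_neg (fun h' => hq ⟨by omega, hqp⟩)]
    · rw [Set.indicator_of_notMem (by exact hqp)]


/-- the sum `Σ_p -log(1-1/p) p^{-s}` as an integral -/
lemma TT_eq {s : ℝ} (hs : 0 < s) :
    HasSum (fun p : Nat.Primes => wp p * ((p : ℕ) : ℝ) ^ (-s))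
      (∫ t in Ioi (0 : ℝ), Real.exp (-t) * LL ⌊Real.exp (t / s)⌋₊) := by
  have hp1 : ∀ p : Nat.Primes, (1 : ℝ) < ((p : ℕ) : ℝ) := fun p => by
    exact_mod_cast p.2.one_lt
  have hlp : ∀ p : Nat.Primes, 0 < s * Real.log ((p : ℕ) : ℝ) := fun p =>
    mul_pos hs (Real.log_pos (hp1 p))
  -- the integral of one term
  have hexp : ∀ p : Nat.Primes, Real.exp (-(s * Real.log ((p : ℕ) : ℝ)))
      = ((p : ℕ) : ℝ) ^ (-s) := fun p => by
    rw [Real.rpow_def_of_pos (by linarith [hp1 p])]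
    congr 1; ring
  have hind : ∀ p : Nat.Primes, Integrable
      ((Ici (s * Real.log ((p : ℕ) : ℝ))).indicator (fun t => wp p * Real.exp (-t)))
      (volume.restrict (Ioi (0 : ℝ))) := fun p => by
    apply Integrable.indicator _ measurableSet_Ici
    apply Integrable.const_mul
    have h0 := exp_neg_integrableOn_Ioi 0 one_pos
    simp only [neg_mul, one_mul] at h0
    exact h0
  have hval : ∀ p : Nat.Primes, ∫ t in Ioi (0 : ℝ),
      (Ici (s * Real.log ((p : ℕ) : ℝ))).indicator (fun t => wp p * Real.exp (-t)) t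
      = wp p * ((p : ℕ) : ℝ) ^ (-s) := fun p => by
    rw [setIntegral_indicator measurableSet_Ici]
    have e : Ioi (0 : ℝ) ∩ Ici (s * Real.log ((p : ℕ) : ℝ)) = Ici (s * Real.log ((p : ℕ) : ℝ)) := by
      apply Set.inter_eq_right.mpr
      intro x hx
      exact lt_of_lt_of_le (hlp p) hx
    rw [e, integral_Ici_eq_integral_Ioi, MeasureTheory.integral_const_mul, integral_exp_neg_Ioi,
      hexp p]
  have hnn : ∀ p : Nat.Primes, ∀ t : ℝ,
      0 ≤ (Ici (s * Real.log ((p : ℕ) : ℝ))).indicator (fun t => wp p * Real.exp (-t)) t := by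
    intro p t
    apply Set.indicator_nonneg
    intro t _
    exact mul_nonneg (wp_nonneg p.2) (Real.exp_pos _).le
  have h := hasSum_integral_of_summable_integral_norm (μ := volume.restrict (Ioi (0 : ℝ)))
    (F := fun p : Nat.Primes =>
      (Ici (s * Real.log ((p : ℕ) : ℝ))).indicator (fun t => wp p * Real.exp (-t))) hind
    (by
      have e : (fun p : Nat.Primes => ∫ t in Ioi (0 : ℝ),
          ‖(Ici (s * Real.log ((p : ℕ) : ℝ))).indicator (fun t => wp p * Real.exp (-t)) t‖)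
          = fun p : Nat.Primes => wp p * ((p : ℕ) : ℝ) ^ (-s) := by
        funext p
        rw [← hval p]
        apply MeasureTheory.integral_congr_ae
        filter_upwards with t
        rw [Real.norm_eq_abs, abs_of_nonneg (hnn p t)]
      rw [e]
      have hsum := (Nat.Primes.summable_rpow (r := -1 - s)).mpr (by linarith)
      refine Summable.of_nonneg_of_le
        (fun p => mul_nonneg (wp_nonneg p.2) (Real.rpow_nonneg (by linarith [hp1 p]) _)) ?_
        (hsum.mul_left 2)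
      intro p
      have hp0 : 0 < ((p : ℕ) : ℝ) := by linarith [hp1 p]
      calc wp p * ((p : ℕ) : ℝ) ^ (-s) ≤ 2 * (1 / ((p : ℕ) : ℝ)) * ((p : ℕ) : ℝ) ^ (-s) :=
            mul_le_mul_of_nonneg_right (wp_le' p.2) (Real.rpow_nonneg hp0.le _)
        _ = 2 * ((p : ℕ) : ℝ) ^ (-1 - s) := by
            rw [sub_eq_add_neg, Real.rpow_add hp0, Real.rpow_neg_one, one_div]
            ring)
  simp only [hval] at h
  have hfun : ∫ t in Ioi (0 : ℝ), Real.exp (-t) * LL ⌊Real.exp (t / s)⌋₊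
      = ∫ a in Ioi (0 : ℝ), ∑' i : Nat.Primes,
        (Ici (s * Real.log ((i : ℕ) : ℝ))).indicator (fun t => wp i * Real.exp (-t)) a := by
    apply MeasureTheory.integral_congr_ae
    filter_upwards with t
    exact TT_point hs t
  rw [hfun]
  exact h

/-- `Σ_p -log(1-1/p) p^{-s} = -log s + c - γ + O(s^{1/2})` -/
lemma exists_TT : ∃ c K : ℝ,
    (∀ n : ℕ, 2 ≤ n → |LL n - Real.log (Real.log n) - c| ≤ K / Real.log n) ∧
    ∀ s : ℝ, 0 < s →
    |(∑' p : Nat.Primes, wp p * ((p : ℕ) : ℝ) ^ (-s))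
      - (c - Real.eulerMascheroniConstant - Real.log s)| ≤ K * s ^ ((1 : ℝ) / 2) := by
  obtain ⟨c, K, hK0, hK1, hK2⟩ := exists_LL_exp
  set I := ∫ t in Ioi (0 : ℝ), Real.exp (-t) * t ^ (-(1 / 2) : ℝ) with hI
  have hI0 : 0 ≤ I := by
    apply setIntegral_nonneg measurableSet_Ioi
    intro t ht
    have : (0 : ℝ) < t := ht
    positivity
  refine ⟨c, K + K * I, ?_, ?_⟩
  · intro n hn
    have hln : 0 < Real.log n := Real.log_pos (by exact_mod_cast hn)
    refine (hK1 n hn).trans ?_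
    apply div_le_div_of_nonneg_right _ hln.le
    have := mul_nonneg hK0 hI0
    linarith
  intro s hs
  rw [(TT_eq hs).tsum_eq]
  have hexpI : IntegrableOn (fun t : ℝ => Real.exp (-t)) (Ioi 0) := by
    have h0 := exp_neg_integrableOn_Ioi 0 one_pos
    simp only [neg_mul, one_mul] at h0
    exact h0
  have hmain : ∫ t in Ioi (0 : ℝ), (Real.exp (-t) * Real.log t
      + Real.exp (-t) * (c - Real.log s)) = c - Real.eulerMascheroniConstant - Real.log s := by
    rw [MeasureTheory.integral_add integrable_exp_log (hexpI.mul_const _), integral_exp_log,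
      MeasureTheory.integral_mul_const, integral_exp_neg_Ioi_zero]
    ring
  have hmainint : IntegrableOn (fun t : ℝ => Real.exp (-t) * Real.log t
      + Real.exp (-t) * (c - Real.log s)) (Ioi 0) :=
    integrable_exp_log.add (hexpI.mul_const _)
  have hbint : IntegrableOn (fun t : ℝ => K * s ^ ((1 : ℝ) / 2) *
      (Real.exp (-t) * t ^ (-(1 / 2) : ℝ))) (Ioi 0) := integrable_exp_rpow.const_mul _
  have hbound : ∀ t ∈ Ioi (0 : ℝ), |Real.exp (-t) * LL ⌊Real.exp (t / s)⌋₊
      - (Real.exp (-t) * Real.log t + Real.exp (-t) * (c - Real.log s))|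
      ≤ K * s ^ ((1 : ℝ) / 2) * (Real.exp (-t) * t ^ (-(1 / 2) : ℝ)) := by
    intro t ht
    have ht0 : (0 : ℝ) < t := ht
    have h1 := hK2 (t / s) (by positivity)
    have e1 : Real.exp (-t) * LL ⌊Real.exp (t / s)⌋₊
      - (Real.exp (-t) * Real.log t + Real.exp (-t) * (c - Real.log s))
      = Real.exp (-t) * (LL ⌊Real.exp (t / s)⌋₊ - (Real.log (t / s) + c)) := by
      rw [Real.log_div ht0.ne' hs.ne']; ring
    have e2 : (t / s) ^ (-(1 / 2) : ℝ) = s ^ ((1 : ℝ) / 2) * t ^ (-(1 / 2) : ℝ) := by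
      rw [Real.div_rpow ht0.le hs.le, Real.rpow_neg hs.le, div_inv_eq_mul, mul_comm]
    rw [e1, abs_mul, abs_of_pos (Real.exp_pos _)]
    rw [e2] at h1
    calc Real.exp (-t) * |LL ⌊Real.exp (t / s)⌋₊ - (Real.log (t / s) + c)|
        ≤ Real.exp (-t) * (K * (s ^ ((1 : ℝ) / 2) * t ^ (-(1 / 2) : ℝ))) :=
          mul_le_mul_of_nonneg_left h1 (Real.exp_pos _).le
      _ = _ := by ring
  -- measurability of the integrand
  have hmeas : Measurable (fun t : ℝ => Real.exp (-t) * LL ⌊Real.exp (t / s)⌋₊) := by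
    apply Measurable.mul (by fun_prop)
    exact (measurable_of_countable LL).comp (Nat.measurable_floor.comp (by fun_prop))
  have hLint : IntegrableOn (fun t : ℝ => Real.exp (-t) * LL ⌊Real.exp (t / s)⌋₊) (Ioi 0) := by
    have h1 : IntegrableOn (fun t : ℝ => Real.exp (-t) * LL ⌊Real.exp (t / s)⌋₊
      - (Real.exp (-t) * Real.log t + Real.exp (-t) * (c - Real.log s))) (Ioi 0) := by
      apply Integrable.mono' hbint
      · exact hmeas.aestronglyMeasurable.sub hmainint.aestronglyMeasurable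
      · rw [ae_restrict_iff' measurableSet_Ioi]
        filter_upwards with t ht
        exact hbound t ht
    have h2 := h1.add hmainint
    refine h2.congr ?_
    filter_upwards with t
    simp
  rw [← hmain, ← MeasureTheory.integral_sub hLint hmainint]
  have h3 := norm_integral_le_of_norm_le (μ := volume.restrict (Ioi (0 : ℝ))) hbint
    (f := fun t : ℝ => Real.exp (-t) * LL ⌊Real.exp (t / s)⌋₊
      - (Real.exp (-t) * Real.log t + Real.exp (-t) * (c - Real.log s)))
    (by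
      rw [ae_restrict_iff' measurableSet_Ioi]
      filter_upwards with t ht
      exact hbound t ht)
  rw [Real.norm_eq_abs, MeasureTheory.integral_const_mul] at h3
  refine h3.trans ?_
  have hs0 : 0 ≤ s ^ ((1 : ℝ) / 2) := Real.rpow_nonneg hs.le _
  rw [← hI]
  nlinarith [mul_nonneg hK0 hs0]

end Pool.Agent.MA
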